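import Pool.Agent.H581.RC.Stmt2

/-! The double is right alternative. -/

namespace Pool.Agent.H581.RA

universe u v w

namespace HBimodule

variable {F : Type u} [Field F] {H : Submodule F (Mat2 F)} {W : HBimodule.{u, v} F H}

lemma ra_iff : W.RightAlternative ↔
    (∀ (m : W.carrier) (b c : H), (b : Mat2 F) * b = c → W.right (W.right m b) b = W.right m c) ∧
    (∀ (a : Mat2 F) (b : H) (m : W.carrier),
      W.right (W.left a m) b + W.left (a * b) m = W.left a (W.left b m + W.right m b)) := Iff.rfl

end HBimodule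

namespace Step

variable {F : Type u} [Field F] {H H' : Submodule F (Mat2 F)} (S : Step F H H')

/-- The right action changed by `m x ↦ m x + α m`. -/
def twistR (M : HBimodule.{u, v} F H') (m : M.carrier) (b : H') : M.carrier :=
  M.rm m b + (S.ξ b * S.α) • m

lemma twistR_bil (M : HBimodule.{u, v} F H') : IsBil F (S.twistR M) := by
  refine ⟨fun m n b => ?_, fun c m b => ?_, fun m a b => ?_, fun c m a => ?_⟩ <;>
    simp only [twistR, HBimodule.rm, map_add, map_smul, LinearMap.add_apply,
      LinearMap.smul_apply, smul_add, Submodule.coe_add, Submodule.coe_smul] <;>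
    module

/-- The twist of `M`: the same left action, and the right action changed by `m x ↦ m x + α m`. -/
def twist (M : HBimodule.{u, v} F H') : HBimodule.{u, v} F H' where
  carrier := M.carrier
  left := M.left
  right := mkBil F (S.twistR M) (S.twistR_bil M)

lemma add_self (h2 : (2 : F) = 0) {V : Type v} [AddCommGroup V] [Module F V] (v : V) :
    v + v = 0 := by
  rw [← two_smul F, h2, zero_smul]

lemma neg_self (h2 : (2 : F) = 0) {V : Type v} [AddCommGroup V] [Module F V] (v : V) :
    -v = v := neg_eq_of_add_eq_zero_left (add_self h2 v)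

lemma sub_eq (h2 : (2 : F) = 0) {V : Type v} [AddCommGroup V] [Module F V] (v w : V) :
    v - w = v + w := by rw [sub_eq_add_neg, neg_self h2]

include S in
/-- linearization of the first identity -/
lemma lin1 {W : HBimodule.{u, v} F H} (hW : W.RightAlternative) (m : W.carrier) {b c d : H}
    (hd : (b : Mat2 F) * c + c * b = d) :
    W.right (W.right m b) c + W.right (W.right m c) b = W.right m d := by
  rw [HBimodule.ra_iff] at hW
  have hb := hW.1 m b ⟨_, S.sq_mem b b.2⟩ rfl
  have hc := hW.1 m c ⟨_, S.sq_mem c c.2⟩ rfl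
  have hbc := hW.1 m (b + c) (⟨_, S.sq_mem b b.2⟩ + ⟨_, S.sq_mem c c.2⟩ + d) (by
    simp only [Submodule.coe_add]
    rw [← hd, add_mul, mul_add, mul_add]; abel)
  simp only [map_add, LinearMap.add_apply] at hbc
  linear_combination (norm := module) hbc - hb - hc

variable (h2 : (2 : F) = 0)
include h2

lemma ad_ad (b : H) : S.ad (S.ad b) = S.α • S.ad b := by
  apply Subtype.ext
  change S.x * (S.x * b + b * S.x) + (S.x * b + b * S.x) * S.x = S.α • (S.x * b + b * S.x)
  have h : S.x * (S.x * b + b * S.x) + (S.x * b + b * S.x) * S.x =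
      S.x * S.x * b + b * (S.x * S.x) + (S.x * b * S.x + S.x * b * S.x) := by
    simp only [mul_add, add_mul, mul_assoc]; abel
  rw [h, add_self h2, add_zero, S.x_mul, smul_mul_assoc, mul_smul_comm, smul_add]

lemma ad_sq (b : H) : (S.ad b : Mat2 F) * b + b * S.ad b = S.ad ⟨_, S.sq_mem b b.2⟩ := by
  change (S.x * b + b * S.x) * b + b * (S.x * b + b * S.x) = S.x * (b * b) + b * b * S.x
  have h : (S.x * b + b * S.x) * b + b * (S.x * b + b * S.x) =
      S.x * (b * b) + b * b * S.x + (b * S.x * b + b * S.x * b) := by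
    simp only [mul_add, add_mul, mul_assoc]; abel
  rw [h, add_self h2, add_zero]

omit h2 in
lemma decomp (b : H') : (b : Mat2 F) = S.base b + S.ξ b • S.x := by
  change (b : Mat2 F) = ((b : Mat2 F) - S.ξ b • S.x) + S.ξ b • S.x
  abel

omit h2 in
lemma sq_decomp (b c : H') (hc : (b : Mat2 F) * b = c) : S.ξ c = S.ξ b * S.ξ b * S.α ∧
    S.base c = ⟨_, S.sq_mem (S.base b) (S.base b).2⟩ + S.ξ b • S.ad (S.base b) := by
  have h1 : (c : Mat2 F) = (S.base b : Mat2 F) * S.base b + S.ξ b • (S.ad (S.base b) : Mat2 F) +
      (S.ξ b * S.ξ b * S.α) • S.x := by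
    have had : (S.ad (S.base b) : Mat2 F) = S.x * S.base b + S.base b * S.x := rfl
    rw [← hc, had]
    conv_lhs => rw [S.decomp b]
    simp only [add_mul, mul_add, smul_mul_assoc, mul_smul_comm, S.x_mul]
    module
  have h3 : S.ξ c = S.ξ b * S.ξ b * S.α := by
    rw [h1, map_add, map_add, map_smul, map_smul, S.ξ_H _ (S.sq_mem _ (S.base b).2),
      S.ξ_H _ (S.ad (S.base b)).2, S.ξ_x]
    simp
  refine ⟨h3, Subtype.ext ?_⟩
  change (c : Mat2 F) - S.ξ c • S.x = _
  rw [h3, h1]
  change _ = (S.base b : Mat2 F) * S.base b + S.ξ b • (S.ad (S.base b) : Mat2 F)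
  abel

theorem double_ra {W : HBimodule.{u, v} F H} (hW : W.RightAlternative) :
    (S.double W).RightAlternative := by
  have hl := fun m b c d hd => S.lin1 hW m (b := b) (c := c) (d := d) hd
  rw [HBimodule.ra_iff] at hW
  constructor
  · intro m b c hc
    obtain ⟨hξ, hb⟩ := S.sq_decomp b c hc
    change S.doubleR W (S.doubleR W m b) b = S.doubleR W m c
    simp only [doubleR, HBimodule.rm, hξ, hb]
    have e1 := hW.1 m.1 (S.base b) ⟨_, S.sq_mem _ (S.base b).2⟩ rfl
    have e2 := hW.1 m.2 (S.base b) ⟨_, S.sq_mem _ (S.base b).2⟩ rfl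
    have e3 := hl m.1 (S.ad (S.base b)) (S.base b) _ (S.ad_sq h2 (S.base b))
    refine Prod.ext ?_ ?_
    · simp only [map_add, map_smul, LinearMap.add_apply, LinearMap.smul_apply]
      linear_combination (norm := skip) e1
      match_scalars <;> grind
    · simp only [map_add, map_smul, LinearMap.add_apply, LinearMap.smul_apply, ad_add, ad_smul,
        S.ad_ad h2]
      linear_combination (norm := skip) e2 + e3
      match_scalars <;> grind
  · intro a b m
    change S.doubleR W (S.doubleL W a m) b + S.doubleL W (a * b) m =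
      S.doubleL W a (S.doubleL W b m + S.doubleR W m b)
    have hb := S.decomp b
    set b0 := S.base b with hb0
    set t := S.ξ b with ht
    have e1 := hW.2 a b0 m.2
    have e2 := hW.2 a b0 (W.left S.x m.1)
    have e3 := congrArg (W.left a) (hW.2 S.x b0 m.1)
    have e4 := hW.2 (a * S.x) b0 m.1
    have e5 := hW.2 a (S.ad b0) m.1
    have e6 := hW.2 a b0 m.1
    have had : ((S.ad b0 : H) : Mat2 F) = S.x * b0 + b0 * S.x := rfl
    have hab : a * (b : Mat2 F) = a * b0 + t • (a * S.x) := by
      rw [hb, mul_add, mul_smul_comm]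
    have habx : a * (b : Mat2 F) * S.x = a * b0 * S.x + (t * S.α) • (a * S.x) := by
      rw [hab, add_mul, smul_mul_assoc, mul_assoc a S.x S.x, S.x_mul, mul_smul_comm, smul_smul]
    have hbx : (b : Mat2 F) * S.x = b0 * S.x + (t * S.α) • S.x := by
      rw [hb, add_mul, smul_mul_assoc, S.x_mul, smul_smul]
    have haa : a * ((S.ad b0 : H) : Mat2 F) = a * S.x * b0 + a * b0 * S.x := by
      rw [had, mul_add, mul_assoc, mul_assoc]
    rw [haa, had] at e5
    refine Prod.ext ?_ ?_
    · simp only [doubleR, doubleL, HBimodule.rm, HBimodule.lm, Prod.fst_add, hab, ← hb0, ← ht]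
      rw [hb]
      simp only [map_add, map_smul, map_sub, LinearMap.add_apply, LinearMap.smul_apply,
        LinearMap.sub_apply] at e6 ⊢
      linear_combination (norm := skip) e6
      match_scalars <;> grind
    · simp only [doubleR, doubleL, HBimodule.rm, HBimodule.lm, Prod.snd_add, Prod.fst_add,
        ← hb0, ← ht]
      rw [habx, hbx, hab, hb]
      simp only [map_add, map_smul, map_sub, LinearMap.add_apply, LinearMap.smul_apply,
        LinearMap.sub_apply] at e1 e2 e3 e4 e5 ⊢
      linear_combination (norm := skip) e1 + e2 + e3 + e4 + e5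
      match_scalars
      all_goals grind

end Step

end Pool.Agent.H581.RA
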