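import Pool.Agent.H581.RC.Tow

/-! Characteristic 2: the final statements. -/

namespace Pool.Agent.H581.RA

universe u v w z

open HBimodule

variable {F : Type u} [Field F]

namespace HBimodule

/-- a bimodule over the matrices as a bimodule over the last subspace -/
def ofBim (M : Bimodule.{u, v} F) : HBimodule.{u, v} F (flag F 4) where
  carrier := M.carrier
  left := M.left
  right := mkBil F (fun m (b : flag F 4) => M.right m (b : Mat2 F))
    ⟨fun m n b => by simp, fun c m b => by simp, fun m a b => by simp, fun c m b => by simp⟩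

lemma ofBim_full (M : Bimodule.{u, v} F) : (ofBim M).full = M := by
  obtain ⟨C, L, R⟩ := M
  have : (mkBil F (ofBim ⟨C, L, R⟩).fullR (ofBim ⟨C, L, R⟩).fullR_bil) = R := by
    refine LinearMap.ext fun m => LinearMap.ext fun a => rfl
  exact congrArg (Bimodule.mk C L) this

lemma full_ra {X : HBimodule.{u, v} F (flag F 4)} :
    X.full.RightAlternative ↔ X.RightAlternative := by
  rw [Pool.Agent.H581.RA.rightAlternative_iff, Bimodule.ra_iff, ra_iff]
  constructor
  · rintro ⟨h1, h3⟩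
    refine ⟨fun m b c hc => ?_, fun a b m => ?_⟩
    · have h4 : X.right (X.right m ⟨(b : Mat2 F), flag_four _⟩) ⟨(b : Mat2 F), flag_four _⟩ =
        X.right m ⟨(b : Mat2 F) * b, flag_four _⟩ := h1 m b
      have h5 : (⟨(b : Mat2 F) * b, flag_four _⟩ : flag F 4) = c := Subtype.ext hc
      rw [h5] at h4
      exact h4
    · have h4 : X.right (X.left a m) ⟨(b : Mat2 F), flag_four _⟩ =
        X.left a (X.left b m + X.right m ⟨(b : Mat2 F), flag_four _⟩) - X.left (a * b) m :=
        h3 a b m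
      rw [eq_sub_iff_add_eq] at h4
      exact h4
  · rintro ⟨h1, h3⟩
    refine ⟨fun m b => h1 m ⟨b, flag_four b⟩ ⟨b * b, flag_four _⟩ rfl, fun a b m => ?_⟩
    rw [eq_sub_iff_add_eq]
    exact h3 a ⟨b, flag_four b⟩ m

lemma full_irr {X : HBimodule.{u, v} F (flag F 4)} : X.full.Irreducible ↔ X.Irreducible := by
  constructor
  · rintro ⟨h1, h3⟩
    refine ⟨h1, fun N hN => h3 N fun a m hm => ⟨(hN m hm).1 a, (hN m hm).2 ⟨a, flag_four a⟩⟩⟩
  · rintro ⟨h1, h3⟩
    refine ⟨h1, fun N hN => h3 N fun m hm => ⟨fun a => (hN a m hm).1, fun b => (hN b m hm).2⟩⟩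

lemma full_iso {X : HBimodule.{u, v} F (flag F 4)} {X' : HBimodule.{u, w} F (flag F 4)} :
    X.full.Isomorphic X'.full ↔ X.Matches X' := by
  constructor
  · rintro ⟨φ, h1, hb, h3, h4⟩
    refine ⟨φ, ⟨h1, h3, fun m b b' hbb => ?_⟩, hb⟩
    have : b = b' := Subtype.ext hbb
    subst this
    exact h4 m b
  · rintro ⟨φ, ⟨h1, h3, h4⟩, hb⟩
    exact ⟨φ, h1, hb, h3, fun m a => h4 m ⟨a, flag_four a⟩ ⟨a, flag_four a⟩ rfl⟩

end HBimodule

variable (h2 : (2 : F) = 0)

lemma matches_of_liesOver {V : HBimodule.{u, v} F (flag F 0)} {V' : HBimodule.{u, w} F (flag F 0)}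
    (hV : V.Irreducible) (hV' : V'.Irreducible) (h : V.LiesOver V') : V.Matches V' := by
  obtain ⟨φ, h1, h0⟩ := liesOver_iff.mp h
  exact schurH hV hV' h1 h0

include h2

theorem complete (M : Bimodule.{u, v} F) (hRA : M.RightAlternative) (hM : M.Irreducible) :
    ∃ V : HBimodule.{u, v} F (flag F 0), V.Irreducible ∧
      ∃ (d : ℕ) (X : HBimodule.{u, v} F (flag F 4)), Tower h2 V 4 d X ∧ M.Isomorphic X.full := by
  rw [← ofBim_full M] at hRA hM
  obtain ⟨V, hV, d, X, hX, hMX⟩ := exists_tower h2 4 le_rfl (ofBim M) (full_ra.mp hRA)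
    (full_irr.mp hM)
  refine ⟨V, hV, d, X, hX, ?_⟩
  have h3 := full_iso.mpr hMX
  rw [ofBim_full] at h3
  exact h3

theorem unique_bottom {V : HBimodule.{u, v} F (flag F 0)} {V' : HBimodule.{u, w} F (flag F 0)}
    (hV : V.Irreducible) (hV' : V'.Irreducible) {k d d' : ℕ} {X : HBimodule.{u, v} F (flag F k)}
    {X' : HBimodule.{u, w} F (flag F k)} (h : Tower h2 V k d X) (h' : Tower h2 V' k d' X')
    (hXX : X.Matches X') : V.Matches V' :=
  matches_of_liesOver hV hV' (h.over h2 (LiesOver.of_matches hXX (h'.liesOver h2 hV')))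

/-- all irreducible bimodules over the `k`-th subspace above `V` are isomorphic to one of the
`X i` -/
def Covers (V : HBimodule.{u, v} F (flag F 0)) (k : ℕ) (ι : Type) : Prop :=
  ∃ X : ι → HBimodule.{u, v} F (flag F k), (∀ i, ∃ d, Tower h2 V k d (X i)) ∧
    ∀ M : HBimodule.{u, v} F (flag F k), M.RightAlternative → M.Irreducible → M.LiesOver V →
      ∃ i, M.Matches (X i)

lemma covers_zero {V : HBimodule.{u, v} F (flag F 0)} (hV : V.Irreducible) :
    Covers h2 V 0 Unit :=
  ⟨fun _ => V, fun _ => ⟨0, Tower.base⟩, fun _ _ hM h => ⟨(), matches_of_liesOver hM hV h⟩⟩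

/-- the bimodule below lies over the same `V` -/
lemma below_lies {V : HBimodule.{u, v} F (flag F 0)} (hV : V.Irreducible) {k : ℕ} (hk : k < 4)
    {M : HBimodule.{u, v} F (flag F (k + 1))} (hRA : M.RightAlternative) (hM : M.Irreducible)
    (h : M.LiesOver V) {W : HBimodule.{u, v} F (flag F k)} (hWRA : W.RightAlternative)
    (hW : W.Irreducible) (hMW : M.LiesOver W) : W.LiesOver V := by
  obtain ⟨V', hV', d, X, hX, hWX⟩ := exists_tower h2 k hk.le W hWRA hW
  have hWV' : W.LiesOver V' := LiesOver.of_matches hWX (hX.liesOver h2 hV')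
  have hMV' : M.LiesOver V' := lies_trans (flag_mono (Nat.zero_le _)) (flag_mono (Nat.le_succ _))
    hMW hW hWV'
  obtain ⟨V'', hV'', d', X', hX', hMX'⟩ := exists_tower h2 (k + 1) hk M hRA hM
  have e1 : V''.Matches V := matches_of_liesOver hV'' hV
    (hX'.over h2 (LiesOver.of_matches hMX'.symm h))
  have e2 : V''.Matches V' := matches_of_liesOver hV'' hV'
    (hX'.over h2 (LiesOver.of_matches hMX'.symm hMV'))
  have e3 : V'.Matches V := e2.symm.trans e1 (fun b hb _ => hb)
  exact lies_trans le_rfl (flag_mono (Nat.zero_le _)) hWV' hV' (liesOver_of_matches e3 hV)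

lemma next_classes {V : HBimodule.{u, v} F (flag F 0)} (k : Fin 4) {d : ℕ}
    {W : HBimodule.{u, v} F (flag F (k : ℕ))} (hWRA : W.RightAlternative) (hW : W.Irreducible)
    (hT : Tower h2 V k d W) :
    ∃ A B : HBimodule.{u, v} F (flag F ((k : ℕ) + 1)),
      (∃ e, Tower h2 V ((k : ℕ) + 1) e A) ∧ (∃ e, Tower h2 V ((k : ℕ) + 1) e B) ∧
      (∀ M : HBimodule.{u, v} F (flag F ((k : ℕ) + 1)), M.RightAlternative → M.Irreducible →
        M.LiesOver W → M.Matches A ∨ M.Matches B) ∧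
      (stepScalar F k = 0 → A.Matches B) := by
  by_cases hext : ∃ ρ, (flagStep h2 k).IsExtension W ρ
  · obtain ⟨ρ, hρ⟩ := hext
    have h3 := (flagStep h2 k).step_extend.{u, v, v} h2 hWRA hW hρ
    refine ⟨_, _, ⟨d, Tower.extend k d W hT ρ hρ⟩, ⟨d, Tower.extend k d W hT _ h3.2.2.2.1⟩,
      fun M hRA hM hMW => h3.2.2.2.2 h3.2.2.2.1.1 M hRA hM hMW, fun h0 => ?_⟩
    have he : (flagStep h2 k).shift W ρ = ρ := by
      funext m
      change ρ m + stepScalar F k • m = ρ m
      rw [h0, zero_smul, add_zero]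
    rw [Step.extend_iso]
    refine ⟨fun m => m, ⟨⟨fun _ _ => rfl, fun _ _ => rfl⟩, fun _ _ => rfl, fun m b b' hbb => ?_⟩,
      Function.bijective_id, fun m => by rw [he]⟩
    rw [Subtype.ext hbb]
  · have hno : ∀ ρ, ¬ (flagStep h2 k).IsExtension W ρ := fun ρ hρ => hext ⟨ρ, hρ⟩
    have h3 := (flagStep h2 k).step_double.{u, v, v} h2 hWRA hW hno
    refine ⟨_, _, ⟨_, Tower.double k d W hT hno⟩, ⟨_, Tower.double k d W hT hno⟩,
      fun M hRA hM hMW => Or.inl (h3.2.2.2 M hRA hM hMW), fun _ => ?_⟩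
    exact matches_iff.mpr ⟨LinearMap.id, ⟨fun a m => rfl, fun m b b' hbb => by
      rw [Subtype.ext hbb]; rfl⟩, Function.bijective_id⟩

lemma covers_succ {V : HBimodule.{u, v} F (flag F 0)} (hV : V.Irreducible) (k : Fin 4) {ι : Type}
    (h : Covers h2 V k ι) : Covers h2 V ((k : ℕ) + 1) (ι × Bool) ∧
      (stepScalar F k = 0 → Covers h2 V ((k : ℕ) + 1) ι) := by
  obtain ⟨X, hX, hc⟩ := h
  choose d hd using hX
  have hg := fun i => (hd i).good h2 hV
  have hn := fun i => next_classes h2 k (hg i).1 (hg i).2 (hd i)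
  choose A B hA hB hAB h0 using hn
  have key : ∀ M : HBimodule.{u, v} F (flag F ((k : ℕ) + 1)), M.RightAlternative →
      M.Irreducible → M.LiesOver V → ∃ i, M.Matches (A i) ∨ M.Matches (B i) := by
    intro M hRA hM hMV
    obtain ⟨W, hWRA, hW, hMW⟩ := (flagStep h2 k).exists_below' hRA hM
    have hWV := below_lies h2 hV k.isLt hRA hM hMV hWRA hW hMW
    obtain ⟨i, hi⟩ := hc W hWRA hW hWV
    have hMX : M.LiesOver (X i) := lies_trans le_rfl (flag_mono (Nat.le_succ _)) hMW hW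
      (liesOver_of_matches hi (hg i).2)
    exact ⟨i, hAB i M hRA hM hMX⟩
  refine ⟨⟨fun p => if p.2 then A p.1 else B p.1, ?_, ?_⟩, fun h3 => ⟨B, hB, ?_⟩⟩
  · rintro ⟨i, b⟩
    cases b
    · exact hB i
    · exact hA i
  · intro M hRA hM hMV
    obtain ⟨i, hi | hi⟩ := key M hRA hM hMV
    · exact ⟨(i, true), hi⟩
    · exact ⟨(i, false), hi⟩
  · intro M hRA hM hMV
    obtain ⟨i, hi | hi⟩ := key M hRA hM hMV
    · exact ⟨i, hi.trans (h0 i h3) (fun b hb _ => hb)⟩
    · exact ⟨i, hi⟩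

theorem at_most_four {V : HBimodule.{u, v} F (flag F 0)} (hV : V.Irreducible) :
    ∃ X : Fin 4 → HBimodule.{u, v} F (flag F 4), (∀ i, ∃ d, Tower h2 V 4 d (X i)) ∧
      ∀ (d : ℕ) (X' : HBimodule.{u, v} F (flag F 4)), Tower h2 V 4 d X' →
        ∃ i, X'.full.Isomorphic (X i).full := by
  have c1 := (covers_succ h2 hV 0 (covers_zero h2 hV)).1
  have c2 := (covers_succ h2 hV 1 c1).2 rfl
  have c3 := (covers_succ h2 hV 2 c2).2 rfl
  have c4 := (covers_succ h2 hV 3 c3).1
  obtain ⟨X, hX, hc⟩ := c4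
  have e : Fin 4 ≃ (Unit × Bool) × Bool := Fintype.equivOfCardEq (by decide)
  refine ⟨fun i => X (e i), fun i => hX (e i), fun d X' hX' => ?_⟩
  have hg := hX'.good h2 hV
  obtain ⟨i, hi⟩ := hc X' hg.1 hg.2 (hX'.liesOver h2 hV)
  refine ⟨e.symm i, full_iso.mpr ?_⟩
  change X'.Matches (X (e (e.symm i)))
  rw [Equiv.apply_symm_apply]
  exact hi

/-- over an algebraically closed field the two extensions are not isomorphic -/
theorem two_classes [IsAlgClosed F] {H H' : Submodule F (Mat2 F)} (S : Step F H H')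
    {W : HBimodule.{u, v} F H} (hW : W.Irreducible) (hf : FiniteDimensional F W.carrier)
    {ρ : W.carrier → W.carrier} (hρ : IsLinearMap F ρ) (hρ' : IsLinearMap F (S.shift W ρ))
    (hα : S.α ≠ 0) : ¬ (S.extend W ρ hρ).Matches (S.extend W (S.shift W ρ) hρ') := by
  rw [S.shift_iso h2 hW]
  rintro ⟨θ, h, ⟨m, hm⟩, hθ⟩
  obtain ⟨φ, h1, h3⟩ := exists_hm h
  have := hW.1
  obtain ⟨c, hc⟩ := Module.End.exists_eigenvalue (K := F) (V := W.carrier) φ
  obtain ⟨n, hn⟩ := hc.exists_hasEigenvector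
  have h4 : Hm W W (φ - c • LinearMap.id) := by
    refine ⟨fun a m => ?_, fun m b b' hb => ?_⟩
    · simp only [LinearMap.sub_apply, LinearMap.smul_apply, LinearMap.id_apply, map_sub, map_smul,
        h3.1]
    · have h5 : b = b' := Subtype.ext hb
      subst h5
      simp only [LinearMap.sub_apply, LinearMap.smul_apply, LinearMap.id_apply, map_sub, map_smul,
        h3.2 m b b rfl]
  have h5 : φ - c • LinearMap.id = 0 := by
    by_contra h0
    have h6 := hm_inj hW h4 le_rfl h0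
    apply hn.2
    apply h6
    rw [map_zero, LinearMap.sub_apply, hn.apply_eq_smul, LinearMap.smul_apply,
      LinearMap.id_apply, sub_self]
  have h6 : ∀ m, θ m = c • m := by
    intro m
    rw [← h1]
    have := LinearMap.congr_fun h5 m
    rw [LinearMap.sub_apply] at this
    exact sub_eq_zero.mp this
  have h7 := hθ m
  rw [h6, h6, hρ.map_smul, Step.add_self h2, ← h6] at h7
  exact (smul_ne_zero hα hm) h7.symm

end Pool.Agent.H581.RA
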