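import Pool.Agent.H581.RC.Stmt2

/-! The four steps of the chain. -/

namespace Pool.Agent.H581.RA

universe u v w

variable {F : Type u} [Field F]

lemma vec_coord (a : Mat2 F) : a = coordinate F 0 a • stepVec F 0 +
    coordinate F 1 a • stepVec F 1 + coordinate F 2 a • stepVec F 2 +
    coordinate F 3 a • stepVec F 3 := by
  obtain ⟨h0, h1, h2, h3⟩ := flag_coord a
  rw [h0, h1, h2, h3]
  ext i j
  fin_cases i <;> fin_cases j <;> simp [stepVec]

lemma flag_mono {k l : ℕ} (h : k ≤ l) : flag F k ≤ flag F l :=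
  fun _ ha j hj => ha j (h.trans hj)

lemma vec_mem (k : Fin 4) : stepVec F k ∈ flag F ((k : ℕ) + 1) := by
  intro j hj
  rw [coord_vec]
  have : j ≠ k := by
    rintro rfl
    omega
  rw [if_neg this]

lemma coord_vec_self (k : Fin 4) : coordinate F k (stepVec F k) = 1 := by
  rw [coord_vec, if_pos rfl]

lemma base_flag (k : Fin 4) : ∀ b ∈ flag F ((k : ℕ) + 1),
    b - coordinate F k b • stepVec F k ∈ flag F (k : ℕ) := by
  intro b hb j hj
  rw [map_sub, map_smul, coord_vec]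
  by_cases h : j = k
  · subst h
    simp
  · rw [if_neg h, smul_zero, sub_zero]
    apply hb
    have : (j : ℕ) ≠ k := fun h' => h (Fin.ext h')
    omega

lemma vec_mul (k : Fin 4) : stepVec F k * stepVec F k = stepScalar F k • stepVec F k := by
  fin_cases k
  · change (1 : Mat2 F) * 1 = (1 : F) • 1
    rw [mul_one, one_smul]
  · change (!![0, 1; 0, 0] : Mat2 F) * !![0, 1; 0, 0] = (0 : F) • !![0, 1; 0, 0]
    ext i j
    fin_cases i <;> fin_cases j <;> simp
  · change (!![0, 0; 1, 0] : Mat2 F) * !![0, 0; 1, 0] = (0 : F) • !![0, 0; 1, 0]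
    ext i j
    fin_cases i <;> fin_cases j <;> simp
  · change (!![1, 0; 0, 0] : Mat2 F) * !![1, 0; 0, 0] = (1 : F) • !![1, 0; 0, 0]
    ext i j
    fin_cases i <;> fin_cases j <;> simp

lemma entries_of_mem {k : ℕ} {b : Mat2 F} (hb : b ∈ flag F k) :
    (k ≤ 0 → b 1 1 = 0) ∧ (k ≤ 1 → b 0 1 = 0) ∧ (k ≤ 2 → b 1 0 = 0) ∧
      (k ≤ 3 → b 0 0 = b 1 1) :=
  ⟨fun h => hb 0 h, fun h => hb 1 h, fun h => hb 2 h, fun h => sub_eq_zero.mp (hb 3 h)⟩

lemma mem_of_entries {k : ℕ} {b : Mat2 F} (h0 : k ≤ 0 → b 1 1 = 0) (h1 : k ≤ 1 → b 0 1 = 0)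
    (h2 : k ≤ 2 → b 1 0 = 0) (h3 : k ≤ 3 → b 0 0 = b 1 1) : b ∈ flag F k := by
  intro j hj
  fin_cases j
  · exact h0 hj
  · exact h1 hj
  · exact h2 hj
  · exact sub_eq_zero.mpr (h3 hj)

lemma sq_flag (k : ℕ) : ∀ b ∈ flag F k, b * b ∈ flag F k := by
  intro b hb
  obtain ⟨e0, e1, e2, e3⟩ := entries_of_mem hb
  refine mem_of_entries (fun h => ?_) (fun h => ?_) (fun h => ?_) (fun h => ?_)
  · have a0 := e0 h
    have a1 := e1 (by omega)
    simp [Matrix.mul_apply, Fin.sum_univ_two, a0, a1]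
  · have a1 := e1 h
    simp [Matrix.mul_apply, Fin.sum_univ_two, a1]
  · have a1 := e2 h
    simp [Matrix.mul_apply, Fin.sum_univ_two, a1]
  · have a1 := e3 h
    simp only [Matrix.mul_apply, Fin.sum_univ_two, a1]
    ring

lemma comm_flag (h2 : (2 : F) = 0) (k : Fin 4) : ∀ b ∈ flag F (k : ℕ),
    stepVec F k * b + b * stepVec F k ∈ flag F (k : ℕ) := by
  intro b hb
  obtain ⟨e0, e1, e2, e3⟩ := entries_of_mem hb
  have hs : ∀ t : F, t + t = 0 := fun t => by linear_combination t * h2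
  have hbe : b = !![b 0 0, b 0 1; b 1 0, b 1 1] := Matrix.eta_fin_two b
  generalize b 0 0 = p at *
  generalize b 0 1 = q at *
  generalize b 1 0 = r at *
  generalize b 1 1 = s at *
  subst hbe
  fin_cases k
  · have a0 := e0 le_rfl
    have a1 := e1 (by simp)
    have a2 := e2 (by simp)
    have a3 := e3 (by simp)
    subst a0 a1 a2 a3
    change (1 : Mat2 F) * !![0, 0; 0, 0] + !![0, 0; 0, 0] * 1 ∈ flag F 0
    refine mem_of_entries (fun h => ?_) (fun h => ?_) (fun h => ?_) (fun h => ?_) <;>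
      simp [Matrix.mul_apply, Fin.sum_univ_two]
  · have a1 := e1 (by simp)
    have a2 := e2 (by simp)
    have a3 := e3 (by simp)
    subst a1 a2 a3
    change (!![0, 1; 0, 0] : Mat2 F) * _ + _ * !![0, 1; 0, 0] ∈ flag F 1
    refine mem_of_entries (fun h => ?_) (fun h => ?_) (fun h => ?_) (fun h => ?_)
    · simp at h
    · simp [Matrix.mul_apply, Fin.sum_univ_two, hs]
    · simp [Matrix.mul_apply, Fin.sum_univ_two]
    · simp [Matrix.mul_apply, Fin.sum_univ_two]
  · have a2 := e2 (by simp)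
    have a3 := e3 (by simp)
    subst a2 a3
    change (!![0, 0; 1, 0] : Mat2 F) * _ + _ * !![0, 0; 1, 0] ∈ flag F 2
    refine mem_of_entries (fun h => ?_) (fun h => ?_) (fun h => ?_) (fun h => ?_)
    · simp at h
    · simp at h
    · simp [Matrix.mul_apply, Fin.sum_univ_two, hs]
    · simp [Matrix.mul_apply, Fin.sum_univ_two]
  · have a3 := e3 (by simp)
    subst a3
    change (!![1, 0; 0, 0] : Mat2 F) * _ + _ * !![1, 0; 0, 0] ∈ flag F 3
    refine mem_of_entries (fun h => ?_) (fun h => ?_) (fun h => ?_) (fun h => ?_)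
    · simp at h
    · simp at h
    · simp at h
    · simp [Matrix.mul_apply, Fin.sum_univ_two, hs]

/-- The `k`-th step of the chain, in characteristic 2. -/
def flagStep (h2 : (2 : F) = 0) (k : Fin 4) : Step F (flag F (k : ℕ)) (flag F ((k : ℕ) + 1)) where
  x := stepVec F k
  α := stepScalar F k
  ξ := coordinate F k
  le := flag_mono (Nat.le_succ _)
  x_mem := vec_mem k
  x_mul := vec_mul k
  ξ_x := coord_vec_self k
  ξ_H := fun _ hb => hb k le_rfl
  base_mem := base_flag k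
  comm_mem := comm_flag h2 k
  sq_mem := sq_flag k

lemma flag_four (a : Mat2 F) : a ∈ flag F 4 := by
  intro j hj
  have := j.isLt
  omega

lemma flag_zero {a : Mat2 F} (ha : a ∈ flag F 0) : a = 0 := by
  obtain ⟨e0, e1, e2, e3⟩ := entries_of_mem ha
  have a0 := e0 le_rfl
  have a1 := e1 (by simp)
  have a2 := e2 (by simp)
  have a3 := e3 (by simp)
  ext i j
  fin_cases i <;> fin_cases j <;> simp [a0, a1, a2, a3]

end Pool.Agent.H581.RA
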