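import Pool.Agent.H581.RC.Fin2

/-! Infinitely many irreducible bimodules. -/

namespace Pool.Agent.H581.RA

universe u v w

open HBimodule

variable {F : Type u} [Field F]

/-- the shift up -/
def shUp (n : ℕ) (v : Fin (n + 1) → F) : Fin (n + 1) → F :=
  fun j => if h : 0 < (j : ℕ) then v ⟨(j : ℕ) - 1, by omega⟩ else 0

/-- the shift down -/
def shDn (n : ℕ) (v : Fin (n + 1) → F) : Fin (n + 1) → F :=
  fun j => if h : (j : ℕ) + 1 < n + 1 then v ⟨(j : ℕ) + 1, h⟩ else 0

/-- the left action -/
def shL (n : ℕ) (a : Mat2 F) (v : Fin (n + 1) → F) : Fin (n + 1) → F :=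
  a 0 1 • shUp n v + a 1 0 • shDn n v + a 1 1 • v

lemma shUp_lin (n : ℕ) : IsLinearMap F (shUp (F := F) n) := by
  refine ⟨fun v w => ?_, fun c v => ?_⟩
  · ext j
    simp only [shUp, Pi.add_apply]
    split_ifs <;> simp
  · ext j
    simp only [shUp, Pi.smul_apply]
    split_ifs <;> simp

lemma shDn_lin (n : ℕ) : IsLinearMap F (shDn (F := F) n) := by
  refine ⟨fun v w => ?_, fun c v => ?_⟩
  · ext j
    simp only [shDn, Pi.add_apply]
    split_ifs <;> simp
  · ext j
    simp only [shDn, Pi.smul_apply]
    split_ifs <;> simp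

lemma shL_bil (n : ℕ) : IsBil F (shL (F := F) n) := by
  refine ⟨fun a b v => ?_, fun c a v => ?_, fun a v w => ?_, fun c a v => ?_⟩
  · simp only [shL, Matrix.add_apply]; module
  · simp only [shL, Matrix.smul_apply, smul_eq_mul]; module
  · simp only [shL, (shUp_lin n).map_add, (shDn_lin n).map_add]; module
  · simp only [shL, (shUp_lin n).map_smul, (shDn_lin n).map_smul]; module

lemma shL_one (n : ℕ) (v : Fin (n + 1) → F) : shL n 1 v = v := by
  simp [shL]

lemma shL_up (n : ℕ) (v : Fin (n + 1) → F) : shL n !![0, 1; 0, 0] v = shUp n v := by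
  simp [shL]

lemma shL_dn (n : ℕ) (v : Fin (n + 1) → F) : shL n !![0, 0; 1, 0] v = shDn n v := by
  simp [shL]

/-- a nonzero subspace stable under both shifts is everything -/
lemma shift_irr (n : ℕ) (N : Submodule F (Fin (n + 1) → F))
    (hU : ∀ v ∈ N, shUp n v ∈ N) (hD : ∀ v ∈ N, shDn n v ∈ N) : N = ⊥ ∨ N = ⊤ := by
  by_cases hN : N = ⊥
  · exact Or.inl hN
  right
  obtain ⟨v, hv, hv0⟩ := N.exists_mem_ne_zero_of_ne_bot hN
  have key : ∀ (k : ℕ) (hk : k < n + 1) (v : Fin (n + 1) → F), v ∈ N →
      (∀ j : Fin (n + 1), k < (j : ℕ) → v j = 0) → v ⟨k, hk⟩ ≠ 0 →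
      Pi.single (0 : Fin (n + 1)) (1 : F) ∈ N := by
    intro k
    induction k with
    | zero =>
      intro hk v hv hj h0
      have h3 : Pi.single (0 : Fin (n + 1)) (1 : F) = (v ⟨0, hk⟩)⁻¹ • v := by
        ext j
        by_cases h : j = 0
        · subst h
          rw [Pi.single_eq_same, Pi.smul_apply, smul_eq_mul]
          exact (inv_mul_cancel₀ h0).symm
        · rw [Pi.single_eq_of_ne h, Pi.smul_apply, hj j (by
            have : (j : ℕ) ≠ 0 := fun h' => h (Fin.ext h')
            omega), smul_zero]
      rw [h3]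
      exact N.smul_mem _ hv
    | succ k ih =>
      intro hk v hv hj h0
      refine ih (by omega) (shDn n v) (hD v hv) (fun j hkj => ?_) ?_
      · simp only [shDn]
        split_ifs with h
        · exact hj _ (by simp; omega)
        · rfl
      · simp only [shDn]
        rw [dif_pos hk]
        exact h0
  have he0 : Pi.single (0 : Fin (n + 1)) (1 : F) ∈ N := by
    classical
    have hne : ∃ j, v j ≠ 0 := by
      by_contra hc
      push Not at hc
      exact hv0 (funext hc)
    let s : Finset (Fin (n + 1)) := Finset.univ.filter fun j => v j ≠ 0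
    have hs : s.Nonempty := by
      obtain ⟨j, hj⟩ := hne
      exact ⟨j, by simp [s, hj]⟩
    have hm := Finset.max'_mem s hs
    have hmv : v (s.max' hs) ≠ 0 := by simpa [s] using hm
    refine key (s.max' hs) (s.max' hs).isLt v hv (fun j hj => ?_) hmv
    by_contra hc
    have := Finset.le_max' s j (by simp [s, hc])
    have h4 : (j : ℕ) ≤ (s.max' hs : ℕ) := this
    omega
  have hej : ∀ (k : ℕ) (hk : k < n + 1), Pi.single (⟨k, hk⟩ : Fin (n + 1)) (1 : F) ∈ N := by
    intro k
    induction k with
    | zero => intro _; exact he0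
    | succ k ih =>
      intro hk
      have h3 := hU _ (ih (by omega))
      have h4 : shUp n (Pi.single (⟨k, by omega⟩ : Fin (n + 1)) (1 : F)) =
          Pi.single (⟨k + 1, hk⟩ : Fin (n + 1)) (1 : F) := by
        ext j
        simp only [shUp]
        by_cases h : j = ⟨k + 1, hk⟩
        · subst h
          simp
        · rw [Pi.single_eq_of_ne h]
          split_ifs with h5
          · rw [Pi.single_eq_of_ne]
            intro h6
            apply h
            have h7 : (j : ℕ) - 1 = k := congrArg Fin.val h6
            exact Fin.ext (by simp; omega)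
          · rfl
      rw [h4] at h3
      exact h3
  rw [eq_top_iff]
  intro w _
  rw [pi_eq_sum_univ' w]
  refine N.sum_mem fun j _ => N.smul_mem _ ?_
  exact hej j j.isLt

/-- the data `Y` of dimension `n + 1` -/
def shQuad (F : Type u) [Field F] (n : ℕ) : Quad.{u, u} F where
  carrier := Fin (n + 1) → F
  h := mkBil F (shL n) (shL_bil n)
  h_one := shL_one n
  e := 0
  e_idem := fun _ => rfl

lemma shQuad_irr (n : ℕ) : (shQuad F n).IsIrreducible := by
  refine ⟨?_, fun N hN => ?_⟩
  · change Nontrivial (Fin (n + 1) → F)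
    infer_instance
  · refine shift_irr n N (fun v hv => ?_) (fun v hv => ?_)
    · have h3 : shL n !![0, 1; 0, 0] v ∈ N := (hN v hv).1 _
      rw [shL_up] at h3
      exact h3
    · have h3 : shL n !![0, 0; 1, 0] v ∈ N := (hN v hv).1 _
      rw [shL_dn] at h3
      exact h3

/-- the module of dimension `n + 1` over the free algebra -/
def shMod (F : Type u) [Field F] (n : ℕ) : HBimodule.{u, u} F (flag F 0) where
  carrier := Fin (n + 1) → F
  left := mkBil F (shL n) (shL_bil n)
  right := 0

lemma shMod_irr (n : ℕ) : (shMod F n).Irreducible := by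
  refine ⟨?_, fun N hN => ?_⟩
  · change Nontrivial (Fin (n + 1) → F)
    infer_instance
  · refine shift_irr n N (fun v hv => ?_) (fun v hv => ?_)
    · have h3 : shL n !![0, 1; 0, 0] v ∈ N := (hN v hv).1 _
      rw [shL_up] at h3
      exact h3
    · have h3 : shL n !![0, 0; 1, 0] v ∈ N := (hN v hv).1 _
      rw [shL_dn] at h3
      exact h3

lemma sh_rank (F : Type u) [Field F] (n : ℕ) : Module.finrank F (Fin (n + 1) → F) = n + 1 := by
  rw [Module.finrank_fin_fun]

lemma simple_rank_ge (Y : Quad.{u, v} F) (h : FiniteDimensional F Y.carrier) :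
    Module.finrank F Y.carrier ≤ Module.finrank F (simpleBim Y).carrier := by
  let φ : Y.carrier →ₗ[F] ↥((bigN Y).gen (Set.range (hat Y))) :=
    LinearMap.codRestrict _ (hatL Y) (fun y => hat_mem_gen Y y)
  have hφ : Function.Injective φ := by
    intro y y' he
    have := congrArg Subtype.val he
    exact hat_inj Y this
  have h' : FiniteDimensional F ↥((bigN Y).gen (Set.range (hat Y))) := (simple_finite Y).mpr h
  have h5 : Module.finrank F Y.carrier ≤
      Module.finrank F ↥((bigN Y).gen (Set.range (hat Y))) :=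
    LinearMap.finrank_le_finrank_of_injective hφ
  exact h5

theorem infinitely_many (F : Type u) [Field F] : ∃ M : ℕ → Bimodule.{u, u} F,
    (∀ n, (M n).RightAlternative ∧ (M n).Irreducible ∧ FiniteDimensional F (M n).carrier ∧
      n ≤ Module.finrank F (M n).carrier) ∧
    ∀ m n, (M m).Isomorphic (M n) → m = n := by
  by_cases h2 : (2 : F) = 0
  · have hX := fun n => at_most_four h2 (shMod_irr (F := F) n)
    choose X hX1 hX2 using hX
    choose d hd using fun n => hX1 n 0
    refine ⟨fun n => (X n 0).full, fun n => ?_, fun m n h => ?_⟩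
    · have hg := (hd n).good h2 (shMod_irr n)
      refine ⟨full_ra.mpr hg.1, full_irr.mpr hg.2, ((hd n).finite h2).mpr ?_, ?_⟩
      · change FiniteDimensional F (Fin (n + 1) → F)
        infer_instance
      · have h3 : Module.finrank F (X n 0).carrier = 2 ^ d n * (n + 1) := by
          rw [(hd n).rank h2]
          congr 1
          exact sh_rank F n
        change n ≤ Module.finrank F (X n 0).carrier
        rw [h3]
        have : 1 ≤ 2 ^ d n := Nat.one_le_two_pow
        nlinarith
    · have h3 := unique_bottom h2 (shMod_irr m) (shMod_irr n) (hd m) (hd n) (full_iso.mp h)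
      obtain ⟨φ, h4, h5⟩ := matches_iff.mp h3
      have h6 := (LinearEquiv.ofBijective φ h5).finrank_eq
      have h7 : Module.finrank F (Fin (m + 1) → F) = Module.finrank F (Fin (n + 1) → F) := h6
      rw [sh_rank, sh_rank] at h7
      omega
  · have h4 : (4 : F) ≠ 0 := by
      have : (4 : F) = 2 * 2 := by norm_num
      rw [this]; exact mul_ne_zero h2 h2
    have hf : ∀ n, FiniteDimensional F (shQuad F n).carrier := by
      intro n
      change FiniteDimensional F (Fin (n + 1) → F)
      infer_instance
    refine ⟨fun n => simpleBim (shQuad F n), fun n => ?_, fun m n h => ?_⟩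
    · refine ⟨simple_ra _, simple_irr _ h4 (shQuad_irr n), (simple_finite _).mpr (hf n), ?_⟩
      have h3 := simple_rank_ge (shQuad F n) (hf n)
      have h5 : Module.finrank F (shQuad F n).carrier = n + 1 := sh_rank F n
      rw [h5] at h3
      exact (Nat.le_succ n).trans h3
    · rw [isomorphic_iff] at h
      have h3 := iso_of_simple_iso h4 h
      obtain ⟨φ, -⟩ := h3
      have h7 : Module.finrank F (Fin (m + 1) → F) = Module.finrank F (Fin (n + 1) → F) :=
        φ.finrank_eq
      rw [sh_rank, sh_rank] at h7
      omega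

end Pool.Agent.H581.RA
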