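import Pool.Agent.H581.RA.Stmt

/-!
Right alternative bimodules in characteristic 2: bimodules in which only the matrices of a subspace
act on the right, the double of such a bimodule, and the chain of subspaces.
-/

namespace Pool.Agent.H581.RA

universe u v w

/-- A vector space with a bilinear left action of all 2 by 2 matrices and a bilinear right action
of the matrices of the subspace `H` only. -/
structure HBimodule (F : Type u) [Field F] (H : Submodule F (Mat2 F)) where
  carrier : Type v
  [grp : AddCommGroup carrier]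
  [mod : Module F carrier]
  left : Mat2 F →ₗ[F] carrier →ₗ[F] carrier
  right : carrier →ₗ[F] H →ₗ[F] carrier

attribute [instance] HBimodule.grp HBimodule.mod

namespace HBimodule

variable {F : Type u} [Field F] {H : Submodule F (Mat2 F)} (M : HBimodule.{u, v} F H)

/-- The product `a m`. -/
def lm (a : Mat2 F) (m : M.carrier) : M.carrier := M.left a m

/-- The product `m b`, for `b` in `H`. -/
def rm (m : M.carrier) (b : H) : M.carrier := M.right m b

/-- The identities of right alternative bimodules, for the products which exist: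
`(m b) b = m (b b)` and `(a m) b + (a b) m = a (b m + m b)`. -/
def RightAlternative : Prop :=
  (∀ (m : M.carrier) (b c : H), (b : Mat2 F) * b = c → M.rm (M.rm m b) b = M.rm m c) ∧
  (∀ (a : Mat2 F) (b : H) (m : M.carrier),
    M.rm (M.lm a m) b + M.lm (a * b) m = M.lm a (M.lm b m + M.rm m b))

/-- The subspaces of `M`. -/
abbrev Subspaces : Type v := Submodule F M.carrier

/-- The subspace is stable under all products. -/
def Stable (N : M.Subspaces) : Prop :=
  ∀ m ∈ N, (∀ a : Mat2 F, M.lm a m ∈ N) ∧ (∀ b : H, M.rm m b ∈ N)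

/-- Nonzero, and the only stable subspaces are zero and the whole space. -/
def Irreducible : Prop :=
  Nontrivial M.carrier ∧ ∀ N : M.Subspaces, M.Stable N → N = ⊥ ∨ N = ⊤

/-- A linear map which commutes with all products that exist on both sides (`H` may be larger than
`H'`). -/
def IsHom {H' : Submodule F (Mat2 F)} (M' : HBimodule.{u, w} F H') (φ : M.carrier → M'.carrier) :
    Prop :=
  IsLinearMap F φ ∧ (∀ (a : Mat2 F) (m : M.carrier), φ (M.lm a m) = M'.lm a (φ m)) ∧
    (∀ (m : M.carrier) (b : H) (b' : H'), (b : Mat2 F) = b' → φ (M.rm m b) = M'.rm (φ m) b')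

/-- There is a bijective homomorphism.  For `H = H'` this is isomorphism; for `H'` smaller than `H`
it says that `M`, with the right action restricted to `H'`, is isomorphic to `M'`. -/
def Matches {H' : Submodule F (Mat2 F)} (M' : HBimodule.{u, w} F H') : Prop :=
  ∃ φ : M.carrier → M'.carrier, M.IsHom M' φ ∧ Function.Bijective φ

/-- There is a nonzero homomorphism to `M'`. -/
def LiesOver {H' : Submodule F (Mat2 F)} (M' : HBimodule.{u, w} F H') : Prop :=
  ∃ φ : M.carrier → M'.carrier, M.IsHom M' φ ∧ ∃ m, φ m ≠ 0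

end HBimodule

/-- One step of a chain: `H' = H + F x` with `x x = α x`, both closed under squares, and
`x b + b x` in `H` for `b` in `H`; `ξ` is the coordinate along `x`. -/
structure Step (F : Type u) [Field F] (H H' : Submodule F (Mat2 F)) where
  x : Mat2 F
  α : F
  ξ : Mat2 F →ₗ[F] F
  le : H ≤ H'
  x_mem : x ∈ H'
  x_mul : x * x = α • x
  ξ_x : ξ x = 1
  ξ_H : ∀ b ∈ H, ξ b = 0
  base_mem : ∀ b ∈ H', b - ξ b • x ∈ H
  comm_mem : ∀ b ∈ H, x * b + b * x ∈ H
  sq_mem : ∀ b ∈ H, b * b ∈ H

namespace Step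

variable {F : Type u} [Field F] {H H' : Submodule F (Mat2 F)} (S : Step F H H')

/-- The component of an element of `H'` in `H`. -/
def base (b : H') : H := ⟨(b : Mat2 F) - S.ξ b • S.x, S.base_mem b b.2⟩

/-- `b ↦ x b + b x` on `H`. -/
def ad (b : H) : H := ⟨S.x * b + b * S.x, S.comm_mem b b.2⟩

/-- Pairs of elements of `W`. -/
abbrev Pair (W : HBimodule.{u, v} F H) : Type v := W.carrier × W.carrier

/-- The left action on the double: `a (w₀, w₁) = (a w₀, a w₁ + a (x w₀) - (a x) w₀)`. -/
def doubleL (W : HBimodule.{u, v} F H) (a : Mat2 F) (m : Pair W) : Pair W :=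
  (W.lm a m.1, W.lm a m.2 + (W.lm a (W.lm S.x m.1) - W.lm (a * S.x) m.1))

/-- The right action on the double: `(w₀, w₁) b = (w₀ b, w₁ b + w₀ (x b + b x))` for `b` in `H`,
and `(w₀, w₁) x = (w₁, α w₁)`. -/
def doubleR (W : HBimodule.{u, v} F H) (m : Pair W) (b : H') : Pair W :=
  (W.rm m.1 (S.base b) + S.ξ b • m.2,
    W.rm m.2 (S.base b) + W.rm m.1 (S.ad (S.base b)) + (S.ξ b * S.α) • m.2)

lemma base_add (b c : H') : S.base (b + c) = S.base b + S.base c := by
  apply Subtype.ext
  change (b : Mat2 F) + c - S.ξ ((b : Mat2 F) + c) • S.x =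
    ((b : Mat2 F) - S.ξ b • S.x) + ((c : Mat2 F) - S.ξ c • S.x)
  rw [map_add, add_smul]; abel

lemma base_smul (t : F) (b : H') : S.base (t • b) = t • S.base b := by
  apply Subtype.ext
  change t • (b : Mat2 F) - S.ξ (t • (b : Mat2 F)) • S.x = t • ((b : Mat2 F) - S.ξ b • S.x)
  rw [map_smul, smul_sub, smul_smul]; rfl

lemma ad_add (b c : H) : S.ad (b + c) = S.ad b + S.ad c := by
  apply Subtype.ext
  change S.x * ((b : Mat2 F) + c) + ((b : Mat2 F) + c) * S.x =
    (S.x * b + b * S.x) + (S.x * c + c * S.x)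
  rw [mul_add, add_mul]; abel

lemma ad_smul (t : F) (b : H) : S.ad (t • b) = t • S.ad b := by
  apply Subtype.ext
  change S.x * (t • (b : Mat2 F)) + (t • (b : Mat2 F)) * S.x = t • (S.x * b + b * S.x)
  rw [mul_smul_comm, smul_mul_assoc, smul_add]

lemma doubleL_bil (W : HBimodule.{u, v} F H) : IsBil F (S.doubleL W) := by
  refine ⟨fun a b m => ?_, fun c a m => ?_, fun a m n => ?_, fun c a m => ?_⟩ <;>
    refine Prod.ext ?_ ?_ <;>
    simp only [doubleL, HBimodule.lm, map_add, map_smul, LinearMap.add_apply,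
      LinearMap.smul_apply, add_mul, smul_mul_assoc, Prod.fst_add, Prod.snd_add, Prod.smul_fst,
      Prod.smul_snd, smul_add, smul_sub] <;> abel

lemma doubleR_bil (W : HBimodule.{u, v} F H) : IsBil F (S.doubleR W) := by
  refine ⟨fun m n b => ?_, fun c m b => ?_, fun m a b => ?_, fun c m a => ?_⟩ <;>
    refine Prod.ext ?_ ?_ <;>
    simp only [doubleR, HBimodule.rm, map_add, map_smul, LinearMap.add_apply,
      LinearMap.smul_apply, base_add, base_smul, ad_add, ad_smul, Prod.fst_add, Prod.snd_add,
      Prod.smul_fst, Prod.smul_snd, smul_add, Submodule.coe_add, Submodule.coe_smul] <;>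
    module

/-- The double of `W`: a bimodule over the larger subspace on `W × W`. -/
def double (W : HBimodule.{u, v} F H) : HBimodule.{u, v} F H' where
  carrier := Pair W
  left := mkBil F (S.doubleL W) (S.doubleL_bil W)
  right := mkBil F (S.doubleR W) (S.doubleR_bil W)

/-- An operator `ρ` on `W` which can serve as right multiplication by `x`. -/
def IsExtension (W : HBimodule.{u, v} F H) (ρ : W.carrier → W.carrier) : Prop :=
  IsLinearMap F ρ ∧ (∀ m, ρ (ρ m) = S.α • ρ m) ∧
    (∀ (a : Mat2 F) (m : W.carrier),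
      ρ (W.lm a m) + W.lm (a * S.x) m = W.lm a (W.lm S.x m + ρ m)) ∧
    (∀ (m : W.carrier) (b : H), ρ (W.rm m b) = W.rm (ρ m) b + W.rm m (S.ad b))

/-- The right action on `W` extended by `m x = ρ m`. -/
def extR (W : HBimodule.{u, v} F H) (ρ : W.carrier → W.carrier) (m : W.carrier) (b : H') :
    W.carrier :=
  W.rm m (S.base b) + S.ξ b • ρ m

lemma extR_bil (W : HBimodule.{u, v} F H) (ρ : W.carrier → W.carrier) (hρ : IsLinearMap F ρ) :
    IsBil F (S.extR W ρ) := by
  refine ⟨fun m n b => ?_, fun c m b => ?_, fun m a b => ?_, fun c m a => ?_⟩ <;>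
    simp only [extR, HBimodule.rm, map_add, map_smul, LinearMap.add_apply, hρ.map_add,
      hρ.map_smul, LinearMap.smul_apply, smul_add, Submodule.coe_add, Submodule.coe_smul,
      base_add, base_smul] <;>
    module

/-- `W` with the right action extended by `m x = ρ m`. -/
def extend (W : HBimodule.{u, v} F H) (ρ : W.carrier → W.carrier) (hρ : IsLinearMap F ρ) :
    HBimodule.{u, v} F H' where
  carrier := W.carrier
  left := W.left
  right := mkBil F (S.extR W ρ) (S.extR_bil W ρ hρ)

/-- The operator `ρ + α`. -/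
def shift (W : HBimodule.{u, v} F H) (ρ : W.carrier → W.carrier) (m : W.carrier) : W.carrier :=
  ρ m + S.α • m

end Step

section Chain

variable (F : Type u) [Field F]

/-- The coordinates with respect to the basis `1, e₁₂, e₂₁, e₁₁`. -/
def coordinate : Fin 4 → Mat2 F →ₗ[F] F :=
  ![Matrix.entryLinearMap F F 1 1, Matrix.entryLinearMap F F 0 1, Matrix.entryLinearMap F F 1 0,
    Matrix.entryLinearMap F F 0 0 - Matrix.entryLinearMap F F 1 1]

/-- The basis `1, e₁₂, e₂₁, e₁₁`. -/
def stepVec : Fin 4 → Mat2 F := ![1, !![0, 1; 0, 0], !![0, 0; 1, 0], !![1, 0; 0, 0]]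

/-- The scalars `α` with `x x = α x` for the vectors `x` of the basis. -/
def stepScalar : Fin 4 → F := ![1, 0, 0, 1]

/-- The span of the first `k` vectors of the basis `1, e₁₂, e₂₁, e₁₁`: the matrices whose other
coordinates are zero. -/
def flag (k : ℕ) : Submodule F (Mat2 F) where
  carrier := {a | ∀ j : Fin 4, k ≤ (j : ℕ) → coordinate F j a = 0}
  add_mem' := fun ha hb j hj => by rw [map_add, ha j hj, hb j hj, add_zero]
  zero_mem' := fun j _ => map_zero _
  smul_mem' := fun c a ha j hj => by rw [map_smul, ha j hj, smul_zero]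

variable {F}

lemma mem_flag {k : ℕ} {a : Mat2 F} :
    a ∈ flag F k ↔ ∀ j : Fin 4, k ≤ (j : ℕ) → coordinate F j a = 0 := Iff.rfl

lemma flag_coord (a : Mat2 F) : coordinate F 0 a = a 1 1 ∧ coordinate F 1 a = a 0 1 ∧
    coordinate F 2 a = a 1 0 ∧ coordinate F 3 a = a 0 0 - a 1 1 :=
  ⟨rfl, rfl, rfl, rfl⟩

lemma coord_vec (j k : Fin 4) : coordinate F j (stepVec F k) = if j = k then 1 else 0 := by
  obtain ⟨h0, h1, h2, h3⟩ := flag_coord (stepVec F k)
  fin_cases j
  · change coordinate F 0 _ = _
    rw [h0]; fin_cases k <;> simp [stepVec]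
  · change coordinate F 1 _ = _
    rw [h1]; fin_cases k <;> simp [stepVec]
  · change coordinate F 2 _ = _
    rw [h2]; fin_cases k <;> simp [stepVec]
  · change coordinate F 3 _ = _
    rw [h3]; fin_cases k <;> simp [stepVec]

end Chain

end Pool.Agent.H581.RA
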