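import Pool.Agent.H581.RC.Dbl

/-! Homomorphisms, Schur's lemma, the homomorphism to the double. -/

namespace Pool.Agent.H581.RA

universe u v w z

namespace HBimodule

variable {F : Type u} [Field F] {H H₁ H₂ : Submodule F (Mat2 F)}

/-- bundled homomorphisms -/
def Hm (M : HBimodule.{u, v} F H) (W : HBimodule.{u, w} F H₁)
    (φ : M.carrier →ₗ[F] W.carrier) : Prop :=
  (∀ (a : Mat2 F) (m : M.carrier), φ (M.left a m) = W.left a (φ m)) ∧
    ∀ (m : M.carrier) (b : H) (b' : H₁), (b : Mat2 F) = b' → φ (M.right m b) = W.right (φ m) b'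

lemma isHom_coe {M : HBimodule.{u, v} F H} {W : HBimodule.{u, w} F H₁}
    {φ : M.carrier →ₗ[F] W.carrier} (h : Hm M W φ) : M.IsHom W φ :=
  ⟨⟨map_add φ, map_smul φ⟩, h.1, h.2⟩

lemma exists_hm {M : HBimodule.{u, v} F H} {W : HBimodule.{u, w} F H₁}
    {φ : M.carrier → W.carrier} (h : M.IsHom W φ) :
    ∃ ψ : M.carrier →ₗ[F] W.carrier, (∀ m, ψ m = φ m) ∧ Hm M W ψ :=
  ⟨IsLinearMap.mk' φ h.1, fun _ => rfl, h.2.1, h.2.2⟩

lemma matches_iff {M : HBimodule.{u, v} F H} {W : HBimodule.{u, w} F H₁} :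
    M.Matches W ↔ ∃ φ : M.carrier →ₗ[F] W.carrier, Hm M W φ ∧ Function.Bijective φ := by
  constructor
  · rintro ⟨φ, h, hb⟩
    obtain ⟨ψ, h1, h2⟩ := exists_hm h
    refine ⟨ψ, h2, ?_⟩
    have : (ψ : M.carrier → W.carrier) = φ := funext h1
    rw [this]; exact hb
  · rintro ⟨φ, h, hb⟩
    exact ⟨φ, isHom_coe h, hb⟩

lemma liesOver_iff {M : HBimodule.{u, v} F H} {W : HBimodule.{u, w} F H₁} :
    M.LiesOver W ↔ ∃ φ : M.carrier →ₗ[F] W.carrier, Hm M W φ ∧ φ ≠ 0 := by
  constructor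
  · rintro ⟨φ, h, m, hm⟩
    obtain ⟨ψ, h1, h2⟩ := exists_hm h
    refine ⟨ψ, h2, ?_⟩
    intro h0
    apply hm
    rw [← h1, h0]; rfl
  · rintro ⟨φ, h, h0⟩
    refine ⟨φ, isHom_coe h, ?_⟩
    by_contra hc
    push Not at hc
    exact h0 (LinearMap.ext hc)

lemma Hm.comp {M : HBimodule.{u, v} F H} {W : HBimodule.{u, w} F H₁} {X : HBimodule.{u, z} F H₂}
    {φ : M.carrier →ₗ[F] W.carrier} {ψ : W.carrier →ₗ[F] X.carrier} (h : Hm M W φ)
    (h' : Hm W X ψ) (hH : ∀ b ∈ H, b ∈ H₂ → b ∈ H₁) : Hm M X (ψ ∘ₗ φ) := by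
  refine ⟨fun a m => ?_, fun m b b' hb => ?_⟩
  · rw [LinearMap.comp_apply, h.1, h'.1]; rfl
  · have h1 : (b : Mat2 F) ∈ H₁ := hH b b.2 (by rw [hb]; exact b'.2)
    rw [LinearMap.comp_apply, h.2 m b ⟨b, h1⟩ rfl, h'.2 _ ⟨b, h1⟩ b' hb]; rfl

lemma Hm.symm {M : HBimodule.{u, v} F H} {W : HBimodule.{u, w} F H₁}
    (φ : M.carrier ≃ₗ[F] W.carrier) (h : Hm M W φ.toLinearMap) : Hm W M φ.symm.toLinearMap := by
  refine ⟨fun a m => ?_, fun m b b' hb => ?_⟩
  · have h1 : φ (M.left a (φ.symm m)) = W.left a (φ (φ.symm m)) := h.1 a (φ.symm m)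
    rw [LinearEquiv.apply_symm_apply] at h1
    change φ.symm (W.left a m) = M.left a (φ.symm m)
    rw [← h1, LinearEquiv.symm_apply_apply]
  · have h1 : φ (M.right (φ.symm m) b') = W.right (φ (φ.symm m)) b := h.2 _ b' b hb.symm
    rw [LinearEquiv.apply_symm_apply] at h1
    change φ.symm (W.right m b) = M.right (φ.symm m) b'
    rw [← h1, LinearEquiv.symm_apply_apply]

lemma range_stable {M : HBimodule.{u, v} F H} {W : HBimodule.{u, w} F H₁}
    {φ : M.carrier →ₗ[F] W.carrier} (h : Hm M W φ) (hH : H₁ ≤ H) :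
    W.Stable (LinearMap.range φ) := by
  rintro _ ⟨m, rfl⟩
  exact ⟨fun a => ⟨M.left a m, h.1 a m⟩, fun b => ⟨M.right m ⟨b, hH b.2⟩, h.2 m _ b rfl⟩⟩

lemma ker_stable {M : HBimodule.{u, v} F H} {W : HBimodule.{u, w} F H₁}
    {φ : M.carrier →ₗ[F] W.carrier} (h : Hm M W φ) (hH : H ≤ H₁) :
    M.Stable (LinearMap.ker φ) := by
  intro m hm
  rw [LinearMap.mem_ker] at hm
  refine ⟨fun a => ?_, fun b => ?_⟩
  · change φ (M.left a m) = 0
    rw [h.1, hm, map_zero]
  · change φ (M.right m b) = 0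
    rw [h.2 m b ⟨b, hH b.2⟩ rfl, hm, map_zero, LinearMap.zero_apply]

lemma hm_surj {M : HBimodule.{u, v} F H} {W : HBimodule.{u, w} F H₁} (hW : W.Irreducible)
    {φ : M.carrier →ₗ[F] W.carrier} (h : Hm M W φ) (hH : H₁ ≤ H) (h0 : φ ≠ 0) :
    Function.Surjective φ := by
  rcases hW.2 _ (range_stable h hH) with h1 | h1
  · exact absurd (LinearMap.range_eq_bot.mp h1) h0
  · exact LinearMap.range_eq_top.mp h1

lemma hm_inj {M : HBimodule.{u, v} F H} {W : HBimodule.{u, w} F H₁} (hM : M.Irreducible)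
    {φ : M.carrier →ₗ[F] W.carrier} (h : Hm M W φ) (hH : H ≤ H₁) (h0 : φ ≠ 0) :
    Function.Injective φ := by
  rcases hM.2 _ (ker_stable h hH) with h1 | h1
  · exact LinearMap.ker_eq_bot.mp h1
  · exact absurd (LinearMap.ker_eq_top.mp h1) h0

lemma schurH {M : HBimodule.{u, v} F H} {W : HBimodule.{u, w} F H} (hM : M.Irreducible)
    (hW : W.Irreducible) {φ : M.carrier →ₗ[F] W.carrier} (h : Hm M W φ) (h0 : φ ≠ 0) :
    M.Matches W :=
  matches_iff.mpr ⟨φ, h, hm_inj hM h le_rfl h0, hm_surj hW h le_rfl h0⟩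

lemma Matches.symm {M : HBimodule.{u, v} F H} {W : HBimodule.{u, w} F H₁} (h : M.Matches W) :
    W.Matches M := by
  obtain ⟨φ, h1, h2⟩ := matches_iff.mp h
  have h3 : Hm M W (LinearEquiv.ofBijective φ h2).toLinearMap := h1
  exact matches_iff.mpr ⟨_, Hm.symm _ h3, (LinearEquiv.ofBijective φ h2).symm.bijective⟩

lemma irr_of_matches {M : HBimodule.{u, v} F H} {W : HBimodule.{u, w} F H₁} (hH : H₁ ≤ H)
    (h : M.Matches W) (hW : W.Irreducible) : M.Irreducible := by
  obtain ⟨φ, h1, h2⟩ := matches_iff.mp h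
  refine ⟨?_, fun N hN => ?_⟩
  · obtain ⟨w, hw⟩ := @exists_ne _ hW.1 (0 : W.carrier)
    obtain ⟨m, hm⟩ := h2.2 w
    refine ⟨m, 0, ?_⟩
    rintro rfl
    exact hw (by rw [← hm, map_zero])
  · rcases hW.2 (N.map φ) (by
      rintro _ ⟨m, hm, rfl⟩
      refine ⟨fun a => ?_, fun b => ?_⟩
      · exact ⟨M.left a m, (hN m hm).1 a, h1.1 a m⟩
      · exact ⟨M.right m ⟨b, hH b.2⟩, (hN m hm).2 ⟨b, hH b.2⟩, h1.2 m _ b rfl⟩) with h3 | h3
    · left
      rw [eq_bot_iff]
      intro m hm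
      have h4 : φ m ∈ N.map φ := ⟨m, hm, rfl⟩
      rw [h3, Submodule.mem_bot] at h4
      rw [Submodule.mem_bot]
      exact h2.1 (by rw [h4, map_zero])
    · right
      rw [eq_top_iff]
      intro m _
      have : φ m ∈ N.map φ := by rw [h3]; trivial
      obtain ⟨n, hn, hnm⟩ := this
      rw [← h2.1 hnm]
      exact hn

lemma liesOver_of_matches {M : HBimodule.{u, v} F H} {W : HBimodule.{u, w} F H₁}
    (h : M.Matches W) (hW : W.Irreducible) : M.LiesOver W := by
  obtain ⟨φ, h1, h2⟩ := matches_iff.mp h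
  refine liesOver_iff.mpr ⟨φ, h1, ?_⟩
  rintro rfl
  obtain ⟨w, hw⟩ := @exists_ne _ hW.1 (0 : W.carrier)
  obtain ⟨m, hm⟩ := h2.2 w
  exact hw hm.symm

/-- the restriction of the action to a stable subspace -/
def subH (M : HBimodule.{u, v} F H) (N : M.Subspaces) (hN : M.Stable N) :
    HBimodule.{u, v} F H where
  carrier := N
  left := mkBil F (fun a (m : N) => (⟨M.left a m.1, (hN m.1 m.2).1 a⟩ : N))
    ⟨fun a b m => by ext; simp, fun c a m => by ext; simp,
      fun a m n => by ext; simp, fun c a m => by ext; simp⟩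
  right := mkBil F (fun (m : N) b => (⟨M.right m.1 b, (hN m.1 m.2).2 b⟩ : N))
    ⟨fun a b m => by ext; simp, fun c a m => by ext; simp,
      fun a m n => by ext; simp, fun c a m => by ext; simp⟩

lemma subH_hm (M : HBimodule.{u, v} F H) (N : M.Subspaces) (hN : M.Stable N) :
    Hm (M.subH N hN) M N.subtype := by
  refine ⟨fun a m => rfl, fun m b b' hb => ?_⟩
  have : b = b' := Subtype.ext hb
  subst this
  rfl

lemma ra_of_inj {M : HBimodule.{u, v} F H} {W : HBimodule.{u, w} F H}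
    {φ : M.carrier →ₗ[F] W.carrier} (h : Hm M W φ) (hi : Function.Injective φ)
    (hW : W.RightAlternative) : M.RightAlternative := by
  rw [ra_iff] at hW ⊢
  refine ⟨fun m b c hc => hi ?_, fun a b m => hi ?_⟩
  · rw [h.2 _ b b rfl, h.2 _ b b rfl, h.2 _ c c rfl]
    exact hW.1 _ b c hc
  · rw [map_add, h.2 _ b b rfl, h.1, h.1, h.1, map_add, h.1, h.2 _ b b rfl]
    exact hW.2 a b _

end HBimodule

namespace Step

open HBimodule

variable {F : Type u} [Field F] {H H' : Submodule F (Mat2 F)} (S : Step F H H')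

/-- `x` as an element of `H'` -/
def xe : H' := ⟨S.x, S.x_mem⟩

lemma base_of_mem (b : H') (b0 : H) (h : (b : Mat2 F) = b0) : S.base b = b0 ∧ S.ξ b = 0 := by
  have h1 : S.ξ b = 0 := by rw [h]; exact S.ξ_H _ b0.2
  refine ⟨Subtype.ext ?_, h1⟩
  change (b : Mat2 F) - S.ξ b • S.x = b0
  rw [h1, zero_smul, sub_zero, h]

lemma base_x : S.base S.xe = 0 ∧ S.ξ (S.xe : Mat2 F) = 1 := by
  refine ⟨Subtype.ext ?_, S.ξ_x⟩
  change S.x - S.ξ S.x • S.x = 0
  rw [S.ξ_x, one_smul, sub_self]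

/-- the element of `H'` given by an element of `H` -/
def up (b : H) : H' := ⟨b, S.le b.2⟩

lemma up_decomp (b : H') : b = S.up (S.base b) + S.ξ b • S.xe := Subtype.ext (S.decomp b)

/-- linearization for `x` and an element of `H` -/
lemma linx {M : HBimodule.{u, v} F H'} (hM : M.RightAlternative) (m : M.carrier) (b : H) :
    M.right (M.right m (S.up b)) S.xe + M.right (M.right m S.xe) (S.up b) =
      M.right m (S.up (S.ad b)) := by
  rw [ra_iff] at hM
  have hb := hM.1 m (S.up b) (S.up ⟨_, S.sq_mem b b.2⟩) rfl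
  have hx := hM.1 m S.xe (S.α • S.xe) S.x_mul
  have hbx := hM.1 m (S.up b + S.xe) (S.up ⟨_, S.sq_mem b b.2⟩ + S.up (S.ad b) + S.α • S.xe) (by
    change ((b : Mat2 F) + S.x) * ((b : Mat2 F) + S.x) =
      (b : Mat2 F) * b + (S.x * b + b * S.x) + S.α • S.x
    rw [← S.x_mul, add_mul, mul_add, mul_add]; abel)
  simp only [map_add, LinearMap.add_apply] at hbx
  linear_combination (norm := module) hbx - hb - hx

variable (h2 : (2 : F) = 0)
include h2

/-- the homomorphism to the double -/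
def toDouble (M : HBimodule.{u, v} F H') {W : HBimodule.{u, w} F H}
    (φ : M.carrier →ₗ[F] W.carrier) : M.carrier →ₗ[F] (S.double W).carrier :=
  LinearMap.prod φ (φ ∘ₗ M.right.flip S.xe)

omit h2 in
lemma toDouble_apply (M : HBimodule.{u, v} F H') {W : HBimodule.{u, w} F H}
    (φ : M.carrier →ₗ[F] W.carrier) (m : M.carrier) :
    S.toDouble M φ m = (φ m, φ (M.right m S.xe)) := rfl

lemma toDouble_hm {M : HBimodule.{u, v} F H'} (hM : M.RightAlternative)
    {W : HBimodule.{u, w} F H} {φ : M.carrier →ₗ[F] W.carrier} (h : Hm M W φ) :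
    Hm M (S.double W) (S.toDouble M φ) := by
  have hra := ra_iff.mp hM
  refine ⟨fun a m => ?_, fun m b b' hb => ?_⟩
  · change S.toDouble M φ (M.left a m) = S.doubleL W a (S.toDouble M φ m)
    rw [toDouble_apply, toDouble_apply]
    refine Prod.ext (h.1 a m) ?_
    have h3 := congrArg φ (hra.2 a S.xe m)
    have hx : ((S.xe : H') : Mat2 F) = S.x := rfl
    rw [hx] at h3
    simp only [map_add, h.1] at h3
    simp only [doubleL, lm]
    linear_combination (norm := module) h3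
  · have hbb : b = b' := Subtype.ext hb
    subst hbb
    change S.toDouble M φ (M.right m b) = S.doubleR W (S.toDouble M φ m) b
    rw [toDouble_apply, toDouble_apply]
    have e0 : M.right m b = M.right m (S.up (S.base b)) + S.ξ b • M.right m S.xe := by
      conv_lhs => rw [S.up_decomp b]
      rw [map_add, map_smul]
    have e1 : ∀ (n : M.carrier) (c : H), φ (M.right n (S.up c)) = W.right (φ n) c :=
      fun n c => h.2 n (S.up c) c rfl
    have e2 := congrArg φ (S.linx hM m (S.base b))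
    have e3 := congrArg φ (hra.1 m S.xe (S.α • S.xe) S.x_mul)
    simp only [map_add, map_smul, e1] at e2 e3
    refine Prod.ext ?_ ?_
    · simp only [doubleR, rm, e0, map_add, map_smul, e1]
    · simp only [doubleR, rm]
      rw [e0]
      simp only [map_add, map_smul, LinearMap.add_apply, LinearMap.smul_apply, e3]
      linear_combination (norm := skip) e2
      match_scalars <;> grind

/-- the kernel of the first projection -/
lemma proper_inter {W : HBimodule.{u, v} F H} (hW : W.Irreducible)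
    {N : Submodule F (W.carrier × W.carrier)} (hN : (S.double W).Stable N) (hN1 : N ≠ ⊤)
    {w : W.carrier} (hw : ((0 : W.carrier), w) ∈ N) : w = 0 := by
  have hK : W.Stable (N.comap (LinearMap.inr F W.carrier W.carrier)) := by
    intro y hy
    have hy' : ((0 : W.carrier), y) ∈ N := hy
    refine ⟨fun a => ?_, fun b => ?_⟩
    · have h3 : S.doubleL W a (0, y) ∈ N := (hN _ hy').1 a
      simp only [doubleL, lm, map_zero, sub_self, add_zero] at h3
      exact h3
    · have h3 : S.doubleR W (0, y) (S.up b) ∈ N := (hN _ hy').2 (S.up b)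
      obtain ⟨h4, h5⟩ := S.base_of_mem (S.up b) b rfl
      simp only [doubleR, rm, h4, h5, map_zero, LinearMap.zero_apply, zero_smul, zero_mul,
        add_zero] at h3
      exact h3
  rcases hW.2 _ hK with h | h
  · have : w ∈ N.comap (LinearMap.inr F W.carrier W.carrier) := hw
    rw [h, Submodule.mem_bot] at this
    exact this
  · exfalso
    apply hN1
    rw [eq_top_iff]
    rintro ⟨y, z⟩ -
    have h0 : ∀ z : W.carrier, ((0 : W.carrier), z) ∈ N := by
      intro z
      have : z ∈ N.comap (LinearMap.inr F W.carrier W.carrier) := by rw [h]; trivial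
      exact this
    have h1 : S.doubleR W (0, y) S.xe ∈ N := (hN _ (h0 y)).2 S.xe
    obtain ⟨h4, h5⟩ := S.base_x
    simp only [doubleR, rm, h4, h5, map_zero, LinearMap.zero_apply, zero_add, one_smul,
      one_mul] at h1
    have h3 := N.add_mem h1 (h0 (z - S.α • y))
    have h6 : ((y, S.α • y) : W.carrier × W.carrier) + (0, z - S.α • y) = (y, z) := by
      ext
      · simp
      · simp
    rw [h6] at h3
    exact h3

end Step

end Pool.Agent.H581.RA
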