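import Pool.Agent.H581.RC.Th

/-! The step theorem. -/

namespace Pool.Agent.H581.RA

universe u v w z

namespace Step

open HBimodule

variable {F : Type u} [Field F] {H H' : Submodule F (Mat2 F)} (S : Step F H H')

lemma fst_hm (W : HBimodule.{u, v} F H) :
    Hm (S.double W) W (LinearMap.fst F W.carrier W.carrier) := by
  refine ⟨fun a m => rfl, fun m b b' hb => ?_⟩
  change (S.doubleR W m b).1 = W.right m.1 b'
  obtain ⟨h4, h5⟩ := S.base_of_mem b b' hb
  simp only [doubleR, rm, h4, h5, zero_smul, add_zero]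

lemma inr_hm (W : HBimodule.{u, v} F H) (w : W.carrier) :
    (∀ a : Mat2 F, S.doubleL W a ((0 : W.carrier), w) = (0, W.left a w)) ∧
    ∀ (b : H') (b' : H), (b : Mat2 F) = b' → S.doubleR W ((0 : W.carrier), w) b =
      (0, W.right w b') := by
  refine ⟨fun a => ?_, fun b b' hb => ?_⟩
  · simp only [doubleL, lm, map_zero, sub_self, add_zero]
  · obtain ⟨h4, h5⟩ := S.base_of_mem b b' hb
    simp only [doubleR, rm, h4, h5, map_zero, LinearMap.zero_apply, zero_smul, zero_mul,
      add_zero]

variable (h2 : (2 : F) = 0)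
include h2

theorem over_cases {M : HBimodule.{u, v} F H'} (hRA : M.RightAlternative) (hM : M.Irreducible)
    {W : HBimodule.{u, w} F H} (hW : W.Irreducible) (h : M.LiesOver W) :
    M.Matches W ∨ M.Matches (S.double W) := by
  obtain ⟨φ, h1, h0⟩ := liesOver_iff.mp h
  have hΦ := S.toDouble_hm h2 hRA h1
  have hΦ0 : S.toDouble M φ ≠ 0 := by
    intro hc
    apply h0
    ext m
    have := LinearMap.congr_fun hc m
    exact congrArg Prod.fst this
  have hi := hm_inj hM hΦ le_rfl hΦ0
  by_cases ht : LinearMap.range (S.toDouble M φ) = ⊤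
  · right
    exact matches_iff.mpr ⟨_, hΦ, hi, LinearMap.range_eq_top.mp ht⟩
  · left
    refine matches_iff.mpr ⟨φ, h1, ?_, hm_surj hW h1 S.le h0⟩
    rw [← LinearMap.ker_eq_bot, LinearMap.ker_eq_bot']
    intro m hm
    have h3 : S.toDouble M φ m = ((0 : W.carrier), φ (M.right m S.xe)) := by
      rw [toDouble_apply, hm]
    have h4 : ((0 : W.carrier), φ (M.right m S.xe)) ∈ LinearMap.range (S.toDouble M φ) :=
      ⟨m, h3⟩
    have h5 := S.proper_inter h2 hW (range_stable hΦ le_rfl) ht h4
    apply hi
    rw [h3, h5, map_zero]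
    rfl

theorem not_irr_of_ext {M : HBimodule.{u, v} F H'} (hRA : M.RightAlternative)
    {W : HBimodule.{u, w} F H} (hW : W.Irreducible) (h : M.Matches W) :
    ¬ (S.double W).Irreducible := by
  obtain ⟨φ, h1, hb⟩ := matches_iff.mp h
  have hΦ := S.toDouble_hm h2 hRA h1
  intro hirr
  obtain ⟨w, hw⟩ := @exists_ne _ hW.1 (0 : W.carrier)
  obtain ⟨m, hm⟩ := hb.2 w
  rcases hirr.2 _ (range_stable hΦ le_rfl) with h3 | h3
  · have h4 : S.toDouble M φ m ∈ LinearMap.range (S.toDouble M φ) := ⟨m, rfl⟩
    rw [h3, Submodule.mem_bot] at h4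
    have h5 : φ m = 0 := congrArg Prod.fst h4
    exact hw (by rw [← hm, h5])
  · have h4 : ((0 : W.carrier), w) ∈ LinearMap.range (S.toDouble M φ) := by rw [h3]; trivial
    obtain ⟨n, hn⟩ := h4
    rw [toDouble_apply] at hn
    have h5 : φ n = 0 := congrArg Prod.fst hn
    have h6 : φ (M.right n S.xe) = w := congrArg Prod.snd hn
    have h7 : n = 0 := hb.1 (by rw [h5, map_zero])
    apply hw
    rw [← h6, h7, map_zero, LinearMap.zero_apply, map_zero]

theorem irr_of_not_ext {W : HBimodule.{u, v} F H} (hRA : W.RightAlternative) (hW : W.Irreducible)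
    (h : ¬ ∃ M : HBimodule.{u, v} F H', M.RightAlternative ∧ M.Matches W) :
    (S.double W).Irreducible := by
  refine ⟨?_, fun N hN => ?_⟩
  · have := hW.1
    change Nontrivial (W.carrier × W.carrier)
    infer_instance
  · by_contra hc
    push Not at hc
    apply h
    refine ⟨(S.double W).subH N hN, ra_of_inj (subH_hm _ N hN) Subtype.val_injective
      (S.double_ra h2 hRA), ?_⟩
    have hh : Hm ((S.double W).subH N hN) W
        ((LinearMap.fst F W.carrier W.carrier) ∘ₗ N.subtype) :=
      Hm.comp (subH_hm _ N hN) (S.fst_hm W) (fun b hb _ => hb)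
    have hi : Function.Injective ((LinearMap.fst F W.carrier W.carrier) ∘ₗ N.subtype) := by
      rw [← LinearMap.ker_eq_bot, LinearMap.ker_eq_bot']
      rintro ⟨⟨a, b⟩, hab⟩ h0
      have ha : a = 0 := h0
      subst ha
      have hb := S.proper_inter h2 hW hN hc.2 hab
      subst hb
      rfl
    have h0 : (LinearMap.fst F W.carrier W.carrier) ∘ₗ N.subtype ≠ 0 := by
      intro h0
      apply hc.1
      rw [eq_bot_iff]
      intro n hn
      have h3 : ((LinearMap.fst F W.carrier W.carrier) ∘ₗ N.subtype) ⟨n, hn⟩ = 0 := by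
        rw [h0]; rfl
      have h4 : (⟨n, hn⟩ : N) = 0 := hi (by rw [h3, map_zero])
      rw [Submodule.mem_bot]
      exact congrArg Subtype.val h4
    exact matches_iff.mpr ⟨_, hh, hi, hm_surj hW hh S.le h0⟩

omit h2 in
theorem over_double (W : HBimodule.{u, v} F H) (hW : W.Irreducible) :
    (S.double W).LiesOver W := by
  refine liesOver_iff.mpr ⟨_, S.fst_hm W, ?_⟩
  obtain ⟨w, hw⟩ := @exists_ne _ hW.1 (0 : W.carrier)
  intro h
  apply hw
  have : (LinearMap.fst F W.carrier W.carrier) (w, (0 : W.carrier)) = 0 := by rw [h]; rfl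
  exact this

theorem twist_ra {M : HBimodule.{u, v} F H'} (hM : M.RightAlternative) :
    (S.twist M).RightAlternative := by
  have hra := ra_iff.mp hM
  have k1 : ∀ (m : M.carrier) (b c : H'), (b : Mat2 F) * b = c →
      S.twistR M (S.twistR M m b) b = S.twistR M m c := by
    intro m b c hc
    obtain ⟨hξ, -⟩ := S.sq_decomp b c hc
    simp only [twistR, rm, map_add, map_smul, LinearMap.add_apply, LinearMap.smul_apply, hξ]
    linear_combination (norm := skip) hra.1 m b c hc
    match_scalars <;> grind
  have k2 : ∀ (a : Mat2 F) (b : H') (m : M.carrier),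
      S.twistR M (M.left a m) b + M.left (a * b) m = M.left a (M.left b m + S.twistR M m b) := by
    intro a b m
    simp only [twistR, rm, map_add, map_smul]
    have h3 := hra.2 a b m
    rw [map_add] at h3
    linear_combination (norm := module) h3
  exact ⟨k1, k2⟩

omit h2 in
theorem twist_matches {M : HBimodule.{u, v} F H'} {W : HBimodule.{u, w} F H}
    (h : M.Matches W) : (S.twist M).Matches W := by
  obtain ⟨φ, h1, hb⟩ := matches_iff.mp h
  have key : ∀ (m : M.carrier) (b : H') (b' : H), (b : Mat2 F) = b' →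
      φ (S.twistR M m b) = W.right (φ m) b' := by
    intro m b b' hbb
    obtain ⟨h4, h5⟩ := S.base_of_mem b b' hbb
    simp only [twistR, rm, h5, zero_mul, zero_smul, add_zero]
    exact h1.2 m b b' hbb
  exact matches_iff.mpr ⟨φ, ⟨h1.1, key⟩, hb⟩

/-- the two extensions -/
theorem two_ext {M : HBimodule.{u, v} F H'} {M' : HBimodule.{u, z} F H'}
    {W : HBimodule.{u, w} F H} (hW : W.Irreducible)
    (hM : M.RightAlternative) (hM' : M'.RightAlternative) (h : M.Matches W)
    (h' : M'.Matches W) : M'.Matches M ∨ M'.Matches (S.twist M) := by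
  have hirr := irr_of_matches S.le h hW
  have hirr' := irr_of_matches S.le h' hW
  have hirt := irr_of_matches S.le (S.twist_matches h) hW
  obtain ⟨φ, h1, hb⟩ := matches_iff.mp h
  obtain ⟨φ', h1', hb'⟩ := matches_iff.mp h'
  -- the bijection between the two
  set e := LinearEquiv.ofBijective φ hb with he
  have hei : ∀ w, φ (e.symm w) = w := fun w => e.apply_symm_apply w
  set ψ : M'.carrier →ₗ[F] M.carrier := e.symm.toLinearMap ∘ₗ φ' with hψ
  have hφψ : ∀ m, φ (ψ m) = φ' m := fun m => hei (φ' m)
  have hψl : ∀ (a : Mat2 F) (m : M'.carrier), ψ (M'.left a m) = M.left a (ψ m) := by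
    intro a m
    apply hb.1
    rw [hφψ, h1'.1, h1.1, hφψ]
  have hψr : ∀ (m : M'.carrier) (b : H), ψ (M'.right m (S.up b)) = M.right (ψ m) (S.up b) := by
    intro m b
    apply hb.1
    rw [hφψ, h1'.2 m (S.up b) b rfl, h1.2 _ (S.up b) b rfl, hφψ]
  have hra := ra_iff.mp hM
  have hra' := ra_iff.mp hM'
  have hx : ((S.xe : H') : Mat2 F) = S.x := rfl
  set d : M'.carrier →ₗ[F] M.carrier := ψ ∘ₗ M'.right.flip S.xe - M.right.flip S.xe ∘ₗ ψ with hd
  have hdm : ∀ m, d m = ψ (M'.right m S.xe) - M.right (ψ m) S.xe := fun m => rfl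
  have hdl : ∀ (a : Mat2 F) (m : M'.carrier), d (M'.left a m) = M.left a (d m) := by
    intro a m
    have e1 := congrArg ψ (hra'.2 a S.xe m)
    have e2 := hra.2 a S.xe (ψ m)
    rw [hx] at e1 e2
    simp only [map_add, hψl] at e1 e2
    rw [hdm, hdm, hψl, map_sub]
    linear_combination (norm := module) e1 - e2
  have hdr : ∀ (m : M'.carrier) (b : H), d (M'.right m (S.up b)) = M.right (d m) (S.up b) := by
    intro m b
    have e1 := congrArg ψ (S.linx hM' m b)
    have e2 := S.linx hM (ψ m) b
    simp only [map_add, hψr] at e1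
    rw [hdm, hdm, hψr, map_sub, LinearMap.sub_apply]
    clear_value ψ
    linear_combination (norm := skip) (1 : F) • e1 - (1 : F) • e2
    match_scalars <;> clear * - h2
    all_goals first | ring1 | linear_combination h2 | linear_combination -h2 | grind
  by_cases hd0 : d = 0
  · left
    have hψx : ∀ m, ψ (M'.right m S.xe) = M.right (ψ m) S.xe := by
      intro m
      have := LinearMap.congr_fun hd0 m
      rw [hdm] at this
      exact sub_eq_zero.mp this
    refine matches_iff.mpr ⟨ψ, ⟨hψl, fun m b b' hbb => ?_⟩, ?_⟩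
    · have : b = b' := Subtype.ext hbb
      subst this
      rw [S.up_decomp b, map_add, map_smul, map_add, map_smul, hψr, hψx, map_add, map_smul]
    · exact e.symm.bijective.comp hb'
  · right
    have hdx : ∀ m, d (M'.right m S.xe) = S.twistR M (d m) S.xe := by
      intro m
      have e1 := congrArg ψ (hra'.1 m S.xe (S.α • S.xe) S.x_mul)
      have e2 := hra.1 (ψ m) S.xe (S.α • S.xe) S.x_mul
      simp only [map_smul] at e1 e2
      obtain ⟨-, h5⟩ := S.base_x
      simp only [twistR, rm, h5, one_mul]
      rw [hdm, hdm, map_sub, LinearMap.sub_apply]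
      clear_value ψ
      linear_combination (norm := skip) (1 : F) • e1 - (1 : F) • e2
      match_scalars <;> clear * - h2
      all_goals first | ring1 | linear_combination h2 | linear_combination -h2 | linear_combination S.α * h2 | linear_combination -S.α * h2 | grind
    have hdh : Hm M' (S.twist M) d := by
      refine ⟨hdl, fun m b b' hbb => ?_⟩
      have : b = b' := Subtype.ext hbb
      subst this
      change d (M'.right m b) = S.twistR M (d m) b
      have h6 : S.twistR M (d m) b = S.twistR M (d m) (S.up (S.base b)) +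
          S.ξ b • S.twistR M (d m) S.xe := by
        conv_lhs => rw [S.up_decomp b]
        rw [(S.twistR_bil M).add_right, (S.twistR_bil M).smul_right]
      have h7 : S.twistR M (d m) (S.up (S.base b)) = M.right (d m) (S.up (S.base b)) := by
        obtain ⟨-, h5⟩ := S.base_of_mem (S.up (S.base b)) (S.base b) rfl
        simp only [twistR, rm, h5, zero_mul, zero_smul, add_zero]
      rw [h6, h7, ← hdx, ← hdr]
      conv_lhs => rw [S.up_decomp b]
      rw [map_add, map_smul, map_add, map_smul]
    exact schurH hirr' hirt hdh hd0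

end Step

end Pool.Agent.H581.RA
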