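import Pool.Agent.H581.RC.Th2

/-! Uniqueness and existence of the bimodule below. -/

namespace Pool.Agent.H581.RA

universe u v w z

namespace HBimodule

variable {F : Type u} [Field F] {H : Submodule F (Mat2 F)}

/-- the quotient by a stable subspace -/
def quotH (M : HBimodule.{u, v} F H) (N : Submodule F M.carrier) (hN : M.Stable N) :
    HBimodule.{u, v} F H where
  carrier := M.carrier ⧸ N
  left := mkBil F (fun a q => N.mapQ N (M.left a) (fun m hm => (hN m hm).1 a) q)
    ⟨fun a b q => by
        obtain ⟨m, rfl⟩ := N.mkQ_surjective q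
        change N.mkQ (M.left (a + b) m) = N.mkQ (M.left a m) + N.mkQ (M.left b m)
        rw [map_add, LinearMap.add_apply, map_add],
      fun c a q => by
        obtain ⟨m, rfl⟩ := N.mkQ_surjective q
        change N.mkQ (M.left (c • a) m) = c • N.mkQ (M.left a m)
        rw [map_smul, LinearMap.smul_apply, map_smul],
      fun a q r => by simp, fun c a q => by simp⟩
  right := mkBil F (fun q b => N.mapQ N (M.right.flip b) (fun m hm => (hN m hm).2 b) q)
    ⟨fun q r b => by simp, fun c q b => by simp,
      fun q a b => by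
        obtain ⟨m, rfl⟩ := N.mkQ_surjective q
        change N.mkQ (M.right m (a + b)) = N.mkQ (M.right m a) + N.mkQ (M.right m b)
        rw [map_add, map_add],
      fun c q b => by
        obtain ⟨m, rfl⟩ := N.mkQ_surjective q
        change N.mkQ (M.right m (c • b)) = c • N.mkQ (M.right m b)
        rw [map_smul, map_smul]⟩

lemma quotH_hm (M : HBimodule.{u, v} F H) (N : Submodule F M.carrier) (hN : M.Stable N) :
    Hm M (M.quotH N hN) N.mkQ := by
  refine ⟨fun a m => rfl, fun m b b' hb => ?_⟩
  have : b = b' := Subtype.ext hb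
  subst this
  rfl

lemma ra_of_surj {M : HBimodule.{u, v} F H} {W : HBimodule.{u, w} F H}
    {φ : M.carrier →ₗ[F] W.carrier} (h : Hm M W φ) (hs : Function.Surjective φ)
    (hM : M.RightAlternative) : W.RightAlternative := by
  rw [ra_iff] at hM ⊢
  refine ⟨fun m b c hc => ?_, fun a b m => ?_⟩
  · obtain ⟨m, rfl⟩ := hs m
    rw [← h.2 _ b b rfl, ← h.2 _ b b rfl, ← h.2 _ c c rfl]
    exact congrArg φ (hM.1 _ b c hc)
  · obtain ⟨m, rfl⟩ := hs m
    rw [← h.1 a m, ← h.2 _ b b rfl, ← h.1, ← h.1, ← h.2 _ b b rfl, ← map_add, ← map_add,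
      ← h.1]
    exact congrArg φ (hM.2 a b _)

/-- a finite-dimensional nonzero `M` has an irreducible quotient -/
lemma exists_irr_quot (M : HBimodule.{u, v} F H) [FiniteDimensional F M.carrier]
    (hM : Nontrivial M.carrier) (hRA : M.RightAlternative) :
    ∃ (W : HBimodule.{u, v} F H) (φ : M.carrier →ₗ[F] W.carrier), W.RightAlternative ∧
      W.Irreducible ∧ FiniteDimensional F W.carrier ∧ Hm M W φ ∧ φ ≠ 0 := by
  let P : Set (Submodule F M.carrier) := {N | M.Stable N ∧ N ≠ ⊤}
  have hP : P.Nonempty := by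
    refine ⟨⊥, ?_, bot_ne_top⟩
    intro m hm
    rw [Submodule.mem_bot] at hm
    subst hm
    refine ⟨fun a => ?_, fun b => ?_⟩
    · change M.left a 0 ∈ _
      rw [map_zero]; exact Submodule.zero_mem _
    · change M.right 0 b ∈ _
      rw [map_zero]; exact Submodule.zero_mem _
  have hwf : WellFounded (fun a b : Submodule F M.carrier => a > b) := wellFounded_gt
  obtain ⟨N, ⟨hN, hN1⟩, hmax⟩ := hwf.has_min P hP
  have hhm := M.quotH_hm N hN
  have hs : Function.Surjective N.mkQ := N.mkQ_surjective
  refine ⟨M.quotH N hN, N.mkQ, ra_of_surj hhm hs hRA, ⟨?_, fun K hK => ?_⟩, ?_, hhm, ?_⟩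
  · exact Submodule.Quotient.nontrivial_iff.mpr hN1
  · have hK' : M.Stable (K.comap N.mkQ) := by
      intro m hm
      have hm' : N.mkQ m ∈ K := hm
      exact ⟨fun a => (hK _ hm').1 a, fun b => (hK _ hm').2 b⟩
    have hle : N ≤ K.comap N.mkQ := by
      intro m hm
      have h3 : N.mkQ m = 0 := (Submodule.Quotient.mk_eq_zero N).mpr hm
      change N.mkQ m ∈ K
      rw [h3]; exact K.zero_mem
    by_cases ht : K.comap N.mkQ = ⊤
    · right
      rw [eq_top_iff]
      intro q _
      obtain ⟨m, rfl⟩ := hs q
      have : m ∈ K.comap N.mkQ := by rw [ht]; trivial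
      exact this
    · left
      have hlt : ¬ (N < K.comap N.mkQ) := hmax _ ⟨hK', ht⟩
      have heq : K.comap N.mkQ = N := le_antisymm (by
        by_contra hc
        exact hlt (lt_of_le_not_ge hle hc)) hle
      rw [eq_bot_iff]
      intro q hq
      obtain ⟨m, rfl⟩ := hs q
      have : m ∈ K.comap N.mkQ := hq
      rw [heq] at this
      have h3 : N.mkQ m = 0 := (Submodule.Quotient.mk_eq_zero N).mpr this
      exact h3
  · change FiniteDimensional F (M.carrier ⧸ N)
    infer_instance
  · intro h0
    apply hN1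
    rw [eq_top_iff]
    intro m _
    have : N.mkQ m = 0 := by rw [h0]; rfl
    exact (Submodule.Quotient.mk_eq_zero N).mp this

end HBimodule

namespace Step

open HBimodule

variable {F : Type u} [Field F] {H H' : Submodule F (Mat2 F)} (S : Step F H H')

/-- the restriction of the right action to `H` -/
def resH (M : HBimodule.{u, v} F H') : HBimodule.{u, v} F H where
  carrier := M.carrier
  left := M.left
  right := mkBil F (fun m b => M.right m (S.up b))
    ⟨fun m n b => by simp, fun c m b => by simp,
      fun m a b => by rw [← map_add]; rfl, fun c m b => by rw [← map_smul]; rfl⟩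

lemma resH_hm (M : HBimodule.{u, v} F H') : Hm M (S.resH M) LinearMap.id := by
  refine ⟨fun a m => rfl, fun m b b' hb => ?_⟩
  have : b = S.up b' := Subtype.ext hb
  subst this
  rfl

lemma resH_ra {M : HBimodule.{u, v} F H'} (hM : M.RightAlternative) :
    (S.resH M).RightAlternative :=
  ⟨fun m b c hc => hM.1 m (S.up b) (S.up c) hc, fun a b m => hM.2 a (S.up b) m⟩

include S in
theorem exists_below {M : HBimodule.{u, v} F H'} (hRA : M.RightAlternative)
    (hM : M.Irreducible) (hf : FiniteDimensional F M.carrier) :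
    ∃ W : HBimodule.{u, v} F H, W.RightAlternative ∧ W.Irreducible ∧
      FiniteDimensional F W.carrier ∧ M.LiesOver W := by
  have : FiniteDimensional F (S.resH M).carrier := hf
  obtain ⟨W, φ, h1, h3, h4, h5, h6⟩ := exists_irr_quot (S.resH M) hM.1 (S.resH_ra hRA)
  refine ⟨W, h1, h3, h4, liesOver_iff.mpr ⟨φ, ?_, h6⟩⟩
  exact Hm.comp (S.resH_hm M) h5 (fun b _ hb => hb)

variable (h2 : (2 : F) = 0)
include h2 S

theorem unique_below {M : HBimodule.{u, z} F H'} (hRA : M.RightAlternative)
    (hM : M.Irreducible) {W : HBimodule.{u, v} F H} {W' : HBimodule.{u, w} F H}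
    (hW : W.Irreducible) (hW' : W'.Irreducible) (h : M.LiesOver W) (h' : M.LiesOver W') :
    W.Matches W' := by
  obtain ⟨φ', k1, k0⟩ := liesOver_iff.mp h'
  rcases S.over_cases h2 hRA hM hW h with h3 | h3
  · obtain ⟨φ, h4, h5⟩ := matches_iff.mp h3
    have h6 : Hm M W (LinearEquiv.ofBijective φ h5).toLinearMap := h4
    have h7 := Hm.comp (Hm.symm _ h6) k1 (fun b hb _ => S.le hb)
    refine schurH hW hW' h7 ?_
    intro h0
    apply k0
    ext m
    obtain ⟨w, rfl⟩ := (LinearEquiv.ofBijective φ h5).symm.surjective m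
    exact LinearMap.congr_fun h0 w
  · obtain ⟨φ, h4, h5⟩ := matches_iff.mp h3
    have h6 : Hm M (S.double W) (LinearEquiv.ofBijective φ h5).toLinearMap := h4
    have h7 := Hm.comp (Hm.symm _ h6) k1 (fun b hb _ => hb)
    set θ : (W.carrier × W.carrier) →ₗ[F] W'.carrier :=
      φ' ∘ₗ (LinearEquiv.ofBijective φ h5).symm.toLinearMap with hθ
    have hθ0 : θ ≠ 0 := by
      intro h0
      apply k0
      ext m
      obtain ⟨w, rfl⟩ := (LinearEquiv.ofBijective φ h5).symm.surjective m
      exact LinearMap.congr_fun h0 w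
    have t1 : ∀ (a : Mat2 F) (m : W.carrier × W.carrier), θ (S.doubleL W a m) =
        W'.left a (θ m) := h7.1
    have t2 : ∀ (m : W.carrier × W.carrier) (b : H') (b' : H), (b : Mat2 F) = b' →
        θ (S.doubleR W m b) = W'.right (θ m) b' := h7.2
    have hr : Hm W W' (θ ∘ₗ LinearMap.inr F W.carrier W.carrier) := by
      refine ⟨fun a m => ?_, fun m b b' hb => ?_⟩
      · change θ (0, W.left a m) = W'.left a (θ (0, m))
        rw [← t1, (S.inr_hm W m).1]
      · change θ (0, W.right m b) = W'.right (θ (0, m)) b'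
        rw [← t2 _ (S.up b) b' hb, (S.inr_hm W m).2 (S.up b) b rfl]
    by_cases hr0 : θ ∘ₗ LinearMap.inr F W.carrier W.carrier = 0
    · have hz : ∀ w : W.carrier, θ (0, w) = 0 := fun w => LinearMap.congr_fun hr0 w
      have hsplit : ∀ y w : W.carrier, θ (y, w) = θ (y, 0) := by
        intro y w
        have : ((y, w) : W.carrier × W.carrier) = (y, 0) + (0, w) := by simp
        rw [this, map_add, hz, add_zero]
      have hl : Hm W W' (θ ∘ₗ LinearMap.inl F W.carrier W.carrier) := by
        refine ⟨fun a m => ?_, fun m b b' hb => ?_⟩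
        · change θ (W.left a m, 0) = W'.left a (θ (m, 0))
          rw [← t1]
          exact (hsplit _ _).symm
        · change θ (W.right m b, 0) = W'.right (θ (m, 0)) b'
          rw [← t2 _ (S.up b) b' hb]
          obtain ⟨h8, h9⟩ := S.base_of_mem (S.up b) b rfl
          simp only [doubleR, rm, h8, h9, zero_smul, add_zero]
          exact (hsplit _ _).symm
      refine schurH hW hW' hl ?_
      intro h0
      apply hθ0
      refine LinearMap.ext fun m => ?_
      obtain ⟨y, w⟩ := m
      rw [hsplit]
      exact LinearMap.congr_fun h0 y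
    · exact schurH hW hW' hr hr0

end Step

end Pool.Agent.H581.RA
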