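import Pool.Agent.H581.RC.Th3

/-! Extensions of the right action. -/

namespace Pool.Agent.H581.RA

universe u v w z

namespace Step

open HBimodule

variable {F : Type u} [Field F] {H H' : Submodule F (Mat2 F)} (S : Step F H H')

lemma extend_matches (W : HBimodule.{u, v} F H) (ρ : W.carrier → W.carrier)
    (hρ : IsLinearMap F ρ) : (S.extend W ρ hρ).Matches W := by
  refine matches_iff.mpr ⟨LinearMap.id, ⟨fun a m => rfl, fun m b b' hb => ?_⟩,
    Function.bijective_id⟩
  change S.extR W ρ m b = W.right m b'
  obtain ⟨h4, h5⟩ := S.base_of_mem b b' hb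
  simp only [extR, rm, h4, h5, zero_smul, add_zero]

lemma extend_matches' (W : HBimodule.{u, v} F H) (ρ : W.carrier → W.carrier)
    (hρ : IsLinearMap F ρ) (M : HBimodule.{u, w} F H') (φ : M.carrier →ₗ[F] W.carrier)
    (hl : ∀ (a : Mat2 F) (m : M.carrier), φ (M.left a m) = W.left a (φ m))
    (hr : ∀ (m : M.carrier) (b : H), φ (M.right m (S.up b)) = W.right (φ m) b)
    (hx : ∀ m : M.carrier, φ (M.right m S.xe) = ρ (φ m)) (hb : Function.Bijective φ) :
    M.Matches (S.extend W ρ hρ) := by
  refine matches_iff.mpr ⟨φ, ⟨hl, fun m b b' hbb => ?_⟩, hb⟩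
  have : b = b' := Subtype.ext hbb
  subst this
  change φ (M.right m b) = S.extR W ρ (φ m) b
  have e0 : M.right m b = M.right m (S.up (S.base b)) + S.ξ b • M.right m S.xe := by
    conv_lhs => rw [S.up_decomp b]
    rw [map_add, map_smul]
  rw [e0, map_add, map_smul, hr, hx]
  rfl

theorem exists_ext (h2 : (2 : F) = 0) {W : HBimodule.{u, v} F H} {E : HBimodule.{u, w} F H'}
    (hE : E.RightAlternative) (h : E.Matches W) :
    ∃ (ρ : W.carrier → W.carrier) (hρ : S.IsExtension W ρ), E.Matches (S.extend W ρ hρ.1) := by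
  obtain ⟨φ, h1, hb⟩ := matches_iff.mp h
  have hra := ra_iff.mp hE
  set e := LinearEquiv.ofBijective φ hb with he
  have hei : ∀ w, φ (e.symm w) = w := fun w => e.apply_symm_apply w
  have hie : ∀ m, e.symm (φ m) = m := fun m => e.symm_apply_apply m
  have hil : ∀ (a : Mat2 F) (w : W.carrier), e.symm (W.left a w) = E.left a (e.symm w) := by
    intro a w
    apply hb.1
    rw [hei, h1.1, hei]
  have hir : ∀ (w : W.carrier) (b : H), e.symm (W.right w b) = E.right (e.symm w) (S.up b) := by
    intro w b
    apply hb.1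
    rw [hei, h1.2 _ (S.up b) b rfl, hei]
  let ρ : W.carrier → W.carrier := fun w => φ (E.right (e.symm w) S.xe)
  have hρ : IsLinearMap F ρ := by
    refine ⟨fun a b => ?_, fun c a => ?_⟩
    · change φ (E.right (e.symm (a + b)) S.xe) = _
      rw [map_add, map_add, LinearMap.add_apply, map_add]
    · change φ (E.right (e.symm (c • a)) S.xe) = _
      rw [map_smul, map_smul, LinearMap.smul_apply, map_smul]
  have hx : ((S.xe : H') : Mat2 F) = S.x := rfl
  refine ⟨ρ, ⟨hρ, fun m => ?_, fun a m => ?_, fun m b => ?_⟩, ?_⟩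
  · change φ (E.right (e.symm (φ (E.right (e.symm m) S.xe))) S.xe) =
      S.α • φ (E.right (e.symm m) S.xe)
    rw [hie, hra.1 _ S.xe (S.α • S.xe) S.x_mul, map_smul, map_smul]
  · change φ (E.right (e.symm (W.left a m)) S.xe) + W.left (a * S.x) m =
      W.left a (W.left S.x m + φ (E.right (e.symm m) S.xe))
    have h3 := congrArg φ (hra.2 a S.xe (e.symm m))
    simp only [map_add, h1.1, hei, hx] at h3
    rw [hil, h3, map_add]
  · change φ (E.right (e.symm (W.right m b)) S.xe) =
      W.right (φ (E.right (e.symm m) S.xe)) b + W.right m (S.ad b)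
    have h3 := congrArg φ (S.linx hE (e.symm m) b)
    simp only [map_add] at h3
    rw [h1.2 _ (S.up b) b rfl, h1.2 _ (S.up (S.ad b)) (S.ad b) rfl, hei] at h3
    rw [hir, ← h3]
    have h4 := add_self h2 (W.right (φ (E.right (e.symm m) S.xe)) b)
    linear_combination (norm := module) -h4
  · refine S.extend_matches' W ρ hρ E φ h1.1 (fun m b => h1.2 m (S.up b) b rfl) (fun m => ?_) hb
    change _ = φ (E.right (e.symm (φ m)) S.xe)
    rw [hie]

variable (h2 : (2 : F) = 0)
include h2

theorem extend_ra {W : HBimodule.{u, v} F H} (hW : W.RightAlternative)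
    {ρ : W.carrier → W.carrier} (hρ : S.IsExtension W ρ) :
    (S.extend W ρ hρ.1).RightAlternative := by
  have hra := ra_iff.mp hW
  obtain ⟨hl, hq, ha, hr⟩ := hρ
  have k1 : ∀ (m : W.carrier) (b c : H'), (b : Mat2 F) * b = c →
      S.extR W ρ (S.extR W ρ m b) b = S.extR W ρ m c := by
    intro m b c hc
    obtain ⟨hξ, hb⟩ := S.sq_decomp b c hc
    have e1 := hra.1 m (S.base b) ⟨_, S.sq_mem _ (S.base b).2⟩ rfl
    have e2 := hr m (S.base b)
    have e3 := hq m
    simp only [rm] at e2
    simp only [extR, rm, hξ, hb, hl.map_add, hl.map_smul, map_add, map_smul,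
      LinearMap.add_apply, LinearMap.smul_apply]
    linear_combination (norm := skip) e1 + S.ξ b • e2 + (S.ξ b * S.ξ b) • e3
    match_scalars <;> grind
  have k2 : ∀ (a : Mat2 F) (b : H') (m : W.carrier),
      S.extR W ρ (W.left a m) b + W.left (a * b) m = W.left a (W.left b m + S.extR W ρ m b) := by
    intro a b m
    have hb := S.decomp b
    set b0 := S.base b with hb0
    set t := S.ξ b with ht
    have e1 := hra.2 a b0 m
    have e2 := ha a m
    simp only [lm] at e2
    have hab : a * (b : Mat2 F) = a * b0 + t • (a * S.x) := by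
      rw [hb, mul_add, mul_smul_comm]
    simp only [extR, rm, ← hb0, ← ht]
    rw [hab, hb]
    simp only [map_add, map_smul, LinearMap.add_apply, LinearMap.smul_apply] at e1 e2 ⊢
    linear_combination (norm := module) e1 + t • e2
  exact ⟨k1, k2⟩

theorem shift_ext {W : HBimodule.{u, v} F H} {ρ : W.carrier → W.carrier}
    (hρ : S.IsExtension W ρ) : S.IsExtension W (S.shift W ρ) := by
  obtain ⟨hl, hq, ha, hr⟩ := hρ
  have hl' : IsLinearMap F (S.shift W ρ) := by
    refine ⟨fun a b => ?_, fun c a => ?_⟩
    · simp only [shift, hl.map_add]; module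
    · simp only [shift, hl.map_smul]; module
  refine ⟨hl', fun m => ?_, fun a m => ?_, fun m b => ?_⟩
  · have e3 := hq m
    simp only [shift, hl.map_add, hl.map_smul]
    linear_combination (norm := skip) e3
    match_scalars <;> grind
  · have e2 := ha a m
    simp only [lm, shift, map_add, map_smul] at e2 ⊢
    linear_combination (norm := module) e2
  · have e2 := hr m b
    simp only [rm, shift, map_add, map_smul, LinearMap.add_apply, LinearMap.smul_apply] at e2 ⊢
    linear_combination (norm := module) e2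

omit h2 in
theorem twist_extend {W : HBimodule.{u, v} F H} {ρ : W.carrier → W.carrier}
    (hρ : IsLinearMap F ρ) (hρ' : IsLinearMap F (S.shift W ρ)) :
    (S.twist (S.extend W ρ hρ)).Matches (S.extend W (S.shift W ρ) hρ') := by
  refine matches_iff.mpr ⟨LinearMap.id, ⟨fun a m => rfl, fun m b b' hbb => ?_⟩,
    Function.bijective_id⟩
  have : b = b' := Subtype.ext hbb
  subst this
  have key : ∀ (m : W.carrier), S.extR W ρ m b + (S.ξ b * S.α) • m =
      S.extR W (S.shift W ρ) m b := by
    intro m
    simp only [extR, shift]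
    module
  exact key m

end Step

end Pool.Agent.H581.RA
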