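import Pool.Agent.H581.RC.Th4

/-! One step of the classification. -/

namespace Pool.Agent.H581.RA

universe u v w z

namespace HBimodule

variable {F : Type u} [Field F] {H H₁ H₂ : Submodule F (Mat2 F)}

lemma Matches.trans {M : HBimodule.{u, v} F H} {W : HBimodule.{u, w} F H₁}
    {X : HBimodule.{u, z} F H₂} (h : M.Matches W) (h' : W.Matches X)
    (hH : ∀ b ∈ H, b ∈ H₂ → b ∈ H₁) : M.Matches X := by
  obtain ⟨φ, h1, hb⟩ := matches_iff.mp h
  obtain ⟨ψ, k1, kb⟩ := matches_iff.mp h'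
  exact matches_iff.mpr ⟨_, h1.comp k1 hH, kb.comp hb⟩

lemma LiesOver.of_matches {M : HBimodule.{u, v} F H} {M' : HBimodule.{u, w} F H}
    {W : HBimodule.{u, z} F H₁} (h : M.Matches M') (h' : M'.LiesOver W) : M.LiesOver W := by
  obtain ⟨φ, h1, hb⟩ := matches_iff.mp h
  obtain ⟨ψ, k1, k0⟩ := liesOver_iff.mp h'
  refine liesOver_iff.mpr ⟨_, h1.comp k1 (fun b hb _ => hb), fun h0 => k0 ?_⟩
  ext m
  obtain ⟨n, rfl⟩ := hb.2 m
  exact LinearMap.congr_fun h0 n

end HBimodule

namespace Step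

open HBimodule

variable {F : Type u} [Field F] {H H' : Submodule F (Mat2 F)} (S : Step F H H')
variable (h2 : (2 : F) = 0)
include h2

lemma no_ext_iff (W : HBimodule.{u, v} F H) (hno : ∀ ρ, ¬ S.IsExtension W ρ) :
    ¬ ∃ M : HBimodule.{u, w} F H', M.RightAlternative ∧ M.Matches W := by
  rintro ⟨M, hM, h⟩
  obtain ⟨ρ, hρ, -⟩ := S.exists_ext h2 hM h
  exact hno ρ hρ

theorem step_double {W : HBimodule.{u, v} F H} (hRA : W.RightAlternative) (hW : W.Irreducible)
    (hno : ∀ ρ, ¬ S.IsExtension W ρ) :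
    (S.double W).RightAlternative ∧ (S.double W).Irreducible ∧ (S.double W).LiesOver W ∧
      ∀ M : HBimodule.{u, w} F H', M.RightAlternative → M.Irreducible → M.LiesOver W →
        M.Matches (S.double W) := by
  refine ⟨S.double_ra h2 hRA, S.irr_of_not_ext h2 hRA hW (S.no_ext_iff h2 W hno),
    S.over_double W hW, fun M hM hMi hMW => ?_⟩
  rcases S.over_cases h2 hM hMi hW hMW with h | h
  · exact absurd ⟨M, hM, h⟩ (S.no_ext_iff h2 W hno)
  · exact h

theorem step_extend {W : HBimodule.{u, v} F H} (hRA : W.RightAlternative) (hW : W.Irreducible)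
    {ρ : W.carrier → W.carrier} (hρ : S.IsExtension W ρ) :
    (S.extend W ρ hρ.1).RightAlternative ∧ (S.extend W ρ hρ.1).Irreducible ∧
      (S.extend W ρ hρ.1).LiesOver W ∧ S.IsExtension W (S.shift W ρ) ∧
      ∀ (h' : IsLinearMap F (S.shift W ρ)) (M : HBimodule.{u, w} F H'),
        M.RightAlternative → M.Irreducible → M.LiesOver W →
        M.Matches (S.extend W ρ hρ.1) ∨ M.Matches (S.extend W (S.shift W ρ) h') := by
  have hm := S.extend_matches W ρ hρ.1
  refine ⟨S.extend_ra h2 hRA hρ, irr_of_matches S.le hm hW, liesOver_of_matches hm hW,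
    S.shift_ext h2 hρ, fun h' M hM hMi hMW => ?_⟩
  rcases S.over_cases h2 hM hMi hW hMW with h | h
  · rcases S.two_ext h2 hW (S.extend_ra h2 hRA hρ) hM hm h with h3 | h3
    · exact Or.inl h3
    · exact Or.inr (h3.trans (S.twist_extend hρ.1 h') (fun b hb _ => hb))
  · exfalso
    exact S.not_irr_of_ext h2 (S.extend_ra h2 hRA hρ) hW hm
      (irr_of_matches le_rfl h.symm hMi)

omit h2 in
/-- isomorphism of two extensions on the same space -/
theorem extend_iso (W : HBimodule.{u, v} F H) {ρ ρ' : W.carrier → W.carrier}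
    (hρ : IsLinearMap F ρ) (hρ' : IsLinearMap F ρ') :
    (S.extend W ρ hρ).Matches (S.extend W ρ' hρ') ↔
      ∃ θ : W.carrier → W.carrier, W.IsHom W θ ∧ Function.Bijective θ ∧
        ∀ m, θ (ρ m) = ρ' (θ m) := by
  constructor
  · intro h
    obtain ⟨φ, h1, hb⟩ := h
    have h1r : ∀ (m : W.carrier) (b : H'), φ (S.extR W ρ m b) = S.extR W ρ' (φ m) b :=
      fun m b => h1.2.2 m b b rfl
    refine ⟨φ, ⟨h1.1, h1.2.1, fun m b b' hbb => ?_⟩, hb, fun m => ?_⟩
    · have : b = b' := Subtype.ext hbb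
      subst this
      have h3 := h1r m (S.up b)
      obtain ⟨h4, h5⟩ := S.base_of_mem (S.up b) b rfl
      simp only [extR, h4, h5, zero_smul, add_zero] at h3
      exact h3
    · have h3 := h1r m S.xe
      obtain ⟨h4, h5⟩ := S.base_x
      simp only [extR, rm, h4, h5, map_zero, zero_add, one_smul] at h3
      exact h3
  · rintro ⟨θ, h, hb, hθ⟩
    obtain ⟨φ, h1, h3⟩ := exists_hm h
    have hφ : (φ : W.carrier → W.carrier) = θ := funext h1
    have key : ∀ (m : W.carrier) (b : H'), φ (S.extR W ρ m b) = S.extR W ρ' (φ m) b := by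
      intro m b
      simp only [extR, rm, map_add, map_smul]
      rw [h3.2 m _ _ rfl, h1, h1, hθ]
    have hφb : Function.Bijective φ := by rw [hφ]; exact hb
    refine matches_iff.mpr ⟨φ, ⟨h3.1, fun m b b' hbb => ?_⟩, hφb⟩
    have : b = b' := Subtype.ext hbb
    subst this
    exact key m b

theorem shift_iso {W : HBimodule.{u, v} F H} (hW : W.Irreducible) {ρ : W.carrier → W.carrier}
    (hρ : IsLinearMap F ρ) (hρ' : IsLinearMap F (S.shift W ρ)) :
    (S.extend W ρ hρ).Matches (S.extend W (S.shift W ρ) hρ') ↔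
      ∃ θ : W.carrier → W.carrier, W.IsHom W θ ∧ (∃ m, θ m ≠ 0) ∧
        ∀ m, θ (ρ m) + ρ (θ m) = S.α • θ m := by
  rw [S.extend_iso]
  constructor
  · rintro ⟨θ, h, hb, hθ⟩
    refine ⟨θ, h, ?_, fun m => ?_⟩
    · obtain ⟨w, hw⟩ := @exists_ne _ hW.1 (0 : W.carrier)
      obtain ⟨m, hm⟩ := hb.2 w
      exact ⟨m, by rw [hm]; exact hw⟩
    · rw [hθ, shift]
      have := add_self h2 (ρ (θ m))
      linear_combination (norm := module) this
  · rintro ⟨θ, h, h0, hθ⟩
    refine ⟨θ, h, ?_, fun m => ?_⟩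
    · obtain ⟨φ, h1, h3⟩ := exists_hm h
      have hφ : (φ : W.carrier → W.carrier) = θ := funext h1
      have hφ0 : φ ≠ 0 := by
        rintro rfl
        obtain ⟨m, hm⟩ := h0
        exact hm (h1 m).symm
      rw [← hφ]
      exact ⟨hm_inj hW h3 le_rfl hφ0, hm_surj hW h3 le_rfl hφ0⟩
    · have h3 := hθ m
      have := add_self h2 (ρ (θ m))
      rw [shift]
      linear_combination (norm := module) h3 - this

end Step

end Pool.Agent.H581.RA
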