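import Pool.Agent.H581.RC.Th5

/-! The irreducible bimodule below, in any dimension. -/

namespace Pool.Agent.H581.RA

universe u v w z

namespace HBimodule

variable {F : Type u} [Field F] {H : Submodule F (Mat2 F)}

lemma quot_irr (M : HBimodule.{u, v} F H) (N : Submodule F M.carrier) (hN : M.Stable N)
    (hN1 : N ≠ ⊤) (hmax : ∀ K : Submodule F M.carrier, M.Stable K → K ≠ ⊤ → N ≤ K → K = N) :
    (M.quotH N hN).Irreducible := by
  have hs : Function.Surjective N.mkQ := N.mkQ_surjective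
  refine ⟨?_, fun K hK => ?_⟩
  · exact Submodule.Quotient.nontrivial_iff.mpr hN1
  · have hK' : M.Stable (K.comap N.mkQ) := by
      intro m hm
      have hm' : N.mkQ m ∈ K := hm
      exact ⟨fun a => (hK _ hm').1 a, fun b => (hK _ hm').2 b⟩
    have hle : N ≤ K.comap N.mkQ := by
      intro m hm
      have h3 : N.mkQ m = 0 := (Submodule.Quotient.mk_eq_zero N).mpr hm
      change N.mkQ m ∈ K
      rw [h3]; exact K.zero_mem
    by_cases ht : K.comap N.mkQ = ⊤
    · right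
      rw [eq_top_iff]
      intro q _
      obtain ⟨m, rfl⟩ := hs q
      have : m ∈ K.comap N.mkQ := by rw [ht]; trivial
      exact this
    · left
      have heq : K.comap N.mkQ = N := hmax _ hK' ht hle
      rw [eq_bot_iff]
      intro q hq
      obtain ⟨m, rfl⟩ := hs q
      have : m ∈ K.comap N.mkQ := hq
      rw [heq] at this
      have h3 : N.mkQ m = 0 := (Submodule.Quotient.mk_eq_zero N).mpr this
      exact h3

/-- if two elements generate, there is a maximal proper stable subspace -/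
lemma exists_max (M : HBimodule.{u, v} F H) (m n : M.carrier)
    (hgen : ∀ N : Submodule F M.carrier, M.Stable N → m ∈ N → n ∈ N → N = ⊤)
    (hM : Nontrivial M.carrier) :
    ∃ N : Submodule F M.carrier, M.Stable N ∧ N ≠ ⊤ ∧
      ∀ K : Submodule F M.carrier, M.Stable K → K ≠ ⊤ → N ≤ K → K = N := by
  let P : Set (Submodule F M.carrier) := {N | M.Stable N ∧ N ≠ ⊤}
  have hP : (⊥ : Submodule F M.carrier) ∈ P := by
    refine ⟨?_, bot_ne_top⟩
    intro m hm
    rw [Submodule.mem_bot] at hm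
    subst hm
    refine ⟨fun a => ?_, fun b => ?_⟩
    · change M.left a 0 ∈ _
      rw [map_zero]; exact Submodule.zero_mem _
    · change M.right 0 b ∈ _
      rw [map_zero]; exact Submodule.zero_mem _
  obtain ⟨N, -, hN⟩ := zorn_le_nonempty₀ P (fun c hc hch y hy => by
    have hdir : DirectedOn (· ≤ ·) c := hch.directedOn
    have hmem : ∀ z : M.carrier, z ∈ sSup c ↔ ∃ y ∈ c, z ∈ y := fun z =>
      Submodule.mem_sSup_of_directed ⟨y, hy⟩ hdir
    refine ⟨sSup c, ⟨fun z hz => ?_, fun htop => ?_⟩, fun z hz => le_sSup hz⟩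
    · obtain ⟨N, hN, hzN⟩ := (hmem z).mp hz
      refine ⟨fun a => (hmem _).mpr ⟨N, hN, ((hc hN).1 z hzN).1 a⟩,
        fun b => (hmem _).mpr ⟨N, hN, ((hc hN).1 z hzN).2 b⟩⟩
    · obtain ⟨N1, hN1, hm1⟩ := (hmem m).mp (by rw [htop]; trivial)
      obtain ⟨N2, hN2, hm2⟩ := (hmem n).mp (by rw [htop]; trivial)
      obtain ⟨N3, hN3, h13, h23⟩ := hdir N1 hN1 N2 hN2
      exact (hc hN3).2 (hgen N3 (hc hN3).1 (h13 hm1) (h23 hm2))) ⊥ hP
  refine ⟨N, hN.prop.1, hN.prop.2, fun K hK hK1 hNK => ?_⟩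
  exact le_antisymm (hN.le_of_ge ⟨hK, hK1⟩ hNK) hNK

end HBimodule

namespace Step

open HBimodule

variable {F : Type u} [Field F] {H H' : Submodule F (Mat2 F)} (S : Step F H H')

theorem gen_two {M : HBimodule.{u, v} F H'} (hRA : M.RightAlternative) (hM : M.Irreducible)
    (m : M.carrier) (hm : m ≠ 0) (N : Submodule F M.carrier) (hN : (S.resH M).Stable N)
    (h1 : m ∈ N) (h1x : M.right m S.xe ∈ N) : N = ⊤ := by
  have hra := ra_iff.mp hRA
  let N₀ : Submodule F M.carrier := sInf {N | (S.resH M).Stable N ∧ m ∈ N ∧ M.right m S.xe ∈ N}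
  have hmem : ∀ z : M.carrier, z ∈ N₀ ↔ ∀ N : Submodule F M.carrier,
      (S.resH M).Stable N ∧ m ∈ N ∧ M.right m S.xe ∈ N → z ∈ N := fun z => Submodule.mem_sInf
  have hs₀ : (S.resH M).Stable N₀ := by
    intro z hz
    have hz' := (hmem z).mp hz
    exact ⟨fun a => (hmem _).mpr fun N hN => (hN.1 z (hz' N hN)).1 a,
      fun b => (hmem _).mpr fun N hN => (hN.1 z (hz' N hN)).2 b⟩
  have hl₀ : ∀ z ∈ N₀, ∀ a : Mat2 F, M.left a z ∈ N₀ := fun z hz a => (hs₀ z hz).1 a
  have hr₀ : ∀ z ∈ N₀, ∀ b : H, M.right z (S.up b) ∈ N₀ := fun z hz b => (hs₀ z hz).2 b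
  have hm₀ : m ∈ N₀ := (hmem _).mpr fun N hN => hN.2.1
  have hmx₀ : M.right m S.xe ∈ N₀ := (hmem _).mpr fun N hN => hN.2.2
  let K : Submodule F M.carrier := N₀ ⊓ N₀.comap (M.right.flip S.xe)
  have hK : (S.resH M).Stable K := by
    rintro z ⟨hz, hzx⟩
    have hzx' : M.right z S.xe ∈ N₀ := hzx
    refine ⟨fun a => ⟨hl₀ z hz a, ?_⟩, fun b => ⟨hr₀ z hz b, ?_⟩⟩
    · change M.right (M.left a z) S.xe ∈ N₀
      have h3 := hra.2 a S.xe z
      rw [← eq_sub_iff_add_eq] at h3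
      rw [h3]
      exact N₀.sub_mem (hl₀ _ (N₀.add_mem (hl₀ z hz _) hzx') a) (hl₀ z hz _)
    · change M.right (M.right z (S.up b)) S.xe ∈ N₀
      have h3 := S.linx hRA z b
      rw [← eq_sub_iff_add_eq] at h3
      rw [h3]
      exact N₀.sub_mem (hr₀ z hz _) (hr₀ _ hzx' b)
  have hmK : m ∈ K := ⟨hm₀, hmx₀⟩
  have hmxK : M.right m S.xe ∈ K := by
    refine ⟨hmx₀, ?_⟩
    change M.right (M.right m S.xe) S.xe ∈ N₀
    rw [hra.1 m S.xe (S.α • S.xe) S.x_mul, map_smul]
    exact N₀.smul_mem _ hmx₀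
  have hNK : ∀ z ∈ N₀, M.right z S.xe ∈ N₀ := fun z hz =>
    ((hmem z).mp hz K ⟨hK, hmK, hmxK⟩).2
  have hstab : M.Stable N₀ := by
    intro z hz
    refine ⟨fun a => hl₀ z hz a, fun b => ?_⟩
    change M.right z b ∈ N₀
    rw [S.up_decomp b, map_add, map_smul]
    exact N₀.add_mem (hr₀ z hz _) (N₀.smul_mem _ (hNK z hz))
  have htop : N₀ = ⊤ := by
    rcases hM.2 N₀ hstab with h | h
    · rw [h, Submodule.mem_bot] at hm₀
      exact absurd hm₀ hm
    · exact h
  rw [eq_top_iff, ← htop]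
  intro z hz
  exact (hmem z).mp hz N ⟨hN, h1, h1x⟩

include S in
theorem exists_below' {M : HBimodule.{u, v} F H'} (hRA : M.RightAlternative)
    (hM : M.Irreducible) :
    ∃ W : HBimodule.{u, v} F H, W.RightAlternative ∧ W.Irreducible ∧ M.LiesOver W := by
  obtain ⟨m, hm⟩ := @exists_ne _ hM.1 (0 : M.carrier)
  obtain ⟨N, hN, hN1, hmax⟩ := exists_max (S.resH M) m (M.right m S.xe)
    (fun N hN h1 h1x => S.gen_two hRA hM m hm N hN h1 h1x) hM.1
  have hhm := (S.resH M).quotH_hm N hN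
  have hs : Function.Surjective N.mkQ := N.mkQ_surjective
  refine ⟨(S.resH M).quotH N hN, ra_of_surj hhm hs (S.resH_ra hRA),
    quot_irr _ N hN hN1 hmax, liesOver_iff.mpr ⟨N.mkQ, ?_, ?_⟩⟩
  · exact Hm.comp (S.resH_hm M) hhm (fun b _ hb => hb)
  · intro h0
    apply hN1
    rw [eq_top_iff]
    intro m _
    have : N.mkQ m = 0 := by rw [h0]; rfl
    exact (Submodule.Quotient.mk_eq_zero N).mp this

end Step

end Pool.Agent.H581.RA
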