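import Pool.Agent.H581.RC.Flag

/-! The towers of the classification in characteristic 2. -/

namespace Pool.Agent.H581.RA

universe u v w

variable {F : Type u} [Field F]

namespace HBimodule

/-- The right action of a bimodule over the last subspace of the chain, which contains all
matrices. -/
def fullR (M : HBimodule.{u, v} F (flag F 4)) (m : M.carrier) (a : Mat2 F) : M.carrier :=
  M.rm m ⟨a, flag_four a⟩

lemma fullR_bil (M : HBimodule.{u, v} F (flag F 4)) : IsBil F M.fullR := by
  refine ⟨fun m n b => ?_, fun c m b => ?_, fun m a b => ?_, fun c m a => ?_⟩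
  · simp only [fullR, rm, map_add, LinearMap.add_apply]
  · simp only [fullR, rm, map_smul, LinearMap.smul_apply]
  · simp only [fullR, rm]
    rw [← map_add]; rfl
  · simp only [fullR, rm]
    rw [← map_smul]; rfl

/-- A bimodule over the last subspace of the chain, as a bimodule over the algebra of matrices. -/
def full (M : HBimodule.{u, v} F (flag F 4)) : Bimodule.{u, v} F where
  carrier := M.carrier
  left := M.left
  right := mkBil F M.fullR M.fullR_bil

end HBimodule

/-- `Tower h2 V k d X`: the bimodule `X` over the `k`-th subspace of the chain is obtained from `V`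
in `k` steps; each step extends the right action to the next basis vector on the same space or, if
this is impossible, on the double.  The number of steps of the second kind is `d`. -/
inductive Tower (h2 : (2 : F) = 0) (V : HBimodule.{u, v} F (flag F 0)) :
    (k d : ℕ) → HBimodule.{u, v} F (flag F k) → Prop
  | base : Tower h2 V 0 0 V
  | extend (k : Fin 4) (d : ℕ) (W : HBimodule.{u, v} F (flag F (k : ℕ)))
      (hW : Tower h2 V k d W) (ρ : W.carrier → W.carrier)
      (hρ : (flagStep h2 k).IsExtension W ρ) :
      Tower h2 V ((k : ℕ) + 1) d ((flagStep h2 k).extend W ρ hρ.1)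
  | double (k : Fin 4) (d : ℕ) (W : HBimodule.{u, v} F (flag F (k : ℕ)))
      (hW : Tower h2 V k d W) (hno : ∀ ρ, ¬ (flagStep h2 k).IsExtension W ρ) :
      Tower h2 V ((k : ℕ) + 1) (d + 1) ((flagStep h2 k).double W)

end Pool.Agent.H581.RA
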