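import Pool.Agent.H581.RC.Th6
import Pool.Agent.H581.RC.Tower
import Pool.Agent.H581.RA.Final

/-! The towers: proofs. -/

namespace Pool.Agent.H581.RA

universe u v w z

open HBimodule

variable {F : Type u} [Field F]

section lies

variable {H H' : Submodule F (Mat2 F)} (S : Step F H H') {K : Submodule F (Mat2 F)}

lemma lies_of_double (_hK : K ≤ H) {W : HBimodule.{u, v} F H} {V : HBimodule.{u, w} F K}
    (h : (S.double W).LiesOver V) : W.LiesOver V := by
  obtain ⟨θ', h7, h0⟩ := liesOver_iff.mp h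
  set θ : (W.carrier × W.carrier) →ₗ[F] V.carrier := θ' with hθ
  have t1 : ∀ (a : Mat2 F) (m : W.carrier × W.carrier), θ (S.doubleL W a m) =
      V.left a (θ m) := h7.1
  have t2 : ∀ (m : W.carrier × W.carrier) (b : H') (b' : K), (b : Mat2 F) = b' →
      θ (S.doubleR W m b) = V.right (θ m) b' := h7.2
  have hr : Hm W V (θ ∘ₗ LinearMap.inr F W.carrier W.carrier) := by
    refine ⟨fun a m => ?_, fun m b b' hb => ?_⟩
    · change θ (0, W.left a m) = V.left a (θ (0, m))
      rw [← t1, (S.inr_hm W m).1]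
    · change θ (0, W.right m b) = V.right (θ (0, m)) b'
      rw [← t2 _ (S.up b) b' hb, (S.inr_hm W m).2 (S.up b) b rfl]
  by_cases hr0 : θ ∘ₗ LinearMap.inr F W.carrier W.carrier = 0
  · have hz : ∀ w : W.carrier, θ (0, w) = 0 := fun w => LinearMap.congr_fun hr0 w
    have hsplit : ∀ y w : W.carrier, θ (y, w) = θ (y, 0) := by
      intro y w
      have : ((y, w) : W.carrier × W.carrier) = (y, 0) + (0, w) := by simp
      rw [this, map_add, hz, add_zero]
    have hl : Hm W V (θ ∘ₗ LinearMap.inl F W.carrier W.carrier) := by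
      refine ⟨fun a m => ?_, fun m b b' hb => ?_⟩
      · change θ (W.left a m, 0) = V.left a (θ (m, 0))
        rw [← t1]
        exact (hsplit _ _).symm
      · change θ (W.right m b, 0) = V.right (θ (m, 0)) b'
        rw [← t2 _ (S.up b) b' hb]
        obtain ⟨h8, h9⟩ := S.base_of_mem (S.up b) b rfl
        simp only [Step.doubleR, rm, h8, h9, zero_smul, add_zero]
        exact (hsplit _ _).symm
    refine liesOver_iff.mpr ⟨_, hl, fun hl0 => h0 ?_⟩
    refine LinearMap.ext fun m => ?_
    obtain ⟨y, w⟩ := m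
    change θ (y, w) = 0
    rw [hsplit]
    exact LinearMap.congr_fun hl0 y
  · exact liesOver_iff.mpr ⟨_, hr, hr0⟩

lemma lies_of_extend {W : HBimodule.{u, v} F H} {V : HBimodule.{u, w} F K}
    {ρ : W.carrier → W.carrier} (hρ : IsLinearMap F ρ)
    (h : (S.extend W ρ hρ).LiesOver V) : W.LiesOver V := by
  obtain ⟨θ', h7, h0⟩ := liesOver_iff.mp h
  set θ : W.carrier →ₗ[F] V.carrier := θ' with hθ
  have t2 : ∀ (m : W.carrier) (b : H') (b' : K), (b : Mat2 F) = b' →
      θ (S.extR W ρ m b) = V.right (θ m) b' := h7.2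
  refine liesOver_iff.mpr ⟨θ, ⟨h7.1, fun m b b' hb => ?_⟩, h0⟩
  rw [← t2 m (S.up b) b' hb]
  obtain ⟨h8, h9⟩ := S.base_of_mem (S.up b) b rfl
  simp only [Step.extR, rm, h8, h9, zero_smul, add_zero]

lemma lies_trans {H₀ H₁ H₂ : Submodule F (Mat2 F)} (h01 : H₀ ≤ H₁) (h12 : H₁ ≤ H₂)
    {M : HBimodule.{u, v} F H₂} {W : HBimodule.{u, w} F H₁} {V : HBimodule.{u, z} F H₀}
    (h : M.LiesOver W) (hW : W.Irreducible) (h' : W.LiesOver V) : M.LiesOver V := by
  obtain ⟨φ, h1, h0⟩ := liesOver_iff.mp h
  obtain ⟨ψ, k1, k0⟩ := liesOver_iff.mp h'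
  refine liesOver_iff.mpr ⟨_, h1.comp k1 (fun b _ hb => h01 hb), fun hc => k0 ?_⟩
  ext w
  obtain ⟨m, rfl⟩ := hm_surj hW h1 h12 h0 w
  exact LinearMap.congr_fun hc m

end lies

lemma ra_zero (V : HBimodule.{u, v} F (flag F 0)) : V.RightAlternative := by
  rw [ra_iff]
  have h0 : ∀ b : flag F 0, b = 0 := fun b => Subtype.ext (flag_zero b.2)
  refine ⟨fun m b c _ => ?_, fun a b m => ?_⟩
  · rw [h0 b, h0 c]; simp
  · rw [h0 b]; simp

variable (h2 : (2 : F) = 0) {V : HBimodule.{u, v} F (flag F 0)}
include h2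

lemma Tower.good (hV : V.Irreducible) {k d : ℕ} {X : HBimodule.{u, v} F (flag F k)}
    (h : Tower h2 V k d X) : X.RightAlternative ∧ X.Irreducible := by
  induction h with
  | base => exact ⟨ra_zero V, hV⟩
  | extend k d W hW ρ hρ ih =>
    have h3 := (flagStep h2 k).step_extend.{u, v, v} h2 ih.1 ih.2 hρ
    exact ⟨h3.1, h3.2.1⟩
  | double k d W hW hno ih =>
    have h3 := (flagStep h2 k).step_double.{u, v, v} h2 ih.1 ih.2 hno
    exact ⟨h3.1, h3.2.1⟩

lemma Tower.finite {k d : ℕ} {X : HBimodule.{u, v} F (flag F k)} (h : Tower h2 V k d X) :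
    FiniteDimensional F X.carrier ↔ FiniteDimensional F V.carrier := by
  induction h with
  | base => exact Iff.rfl
  | extend k d W hW ρ hρ ih => exact ih
  | double k d W hW hno ih =>
    rw [← ih]
    constructor
    · intro h3
      have h4 : FiniteDimensional F (W.carrier × W.carrier) := h3
      exact Module.Finite.of_surjective (LinearMap.fst F W.carrier W.carrier)
        Prod.fst_surjective
    · intro h3
      change FiniteDimensional F (W.carrier × W.carrier)
      infer_instance

lemma Tower.rank {k d : ℕ} {X : HBimodule.{u, v} F (flag F k)} (h : Tower h2 V k d X) :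
    Module.finrank F X.carrier = 2 ^ d * Module.finrank F V.carrier := by
  have hall := fun (k d : ℕ) (X : HBimodule.{u, v} F (flag F k)) (h : Tower h2 V k d X) =>
    h.finite h2
  induction h with
  | base => simp
  | extend k d W hW ρ hρ ih => exact ih
  | double k d W hW hno ih =>
    have hf := hall _ _ _ hW
    by_cases hW' : FiniteDimensional F W.carrier
    · change Module.finrank F (W.carrier × W.carrier) = _
      rw [Module.finrank_prod, ih]
      ring
    · have h3 : ¬ FiniteDimensional F (W.carrier × W.carrier) := by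
        intro h3
        exact hW' (Module.Finite.of_surjective (LinearMap.fst F W.carrier W.carrier)
          Prod.fst_surjective)
      change Module.finrank F (W.carrier × W.carrier) = _
      rw [Module.finrank_of_not_finite h3, Module.finrank_of_not_finite (fun hc => hW' (hf.mpr hc)),
        mul_zero]

lemma Tower.liesOver (hV : V.Irreducible) {k d : ℕ} {X : HBimodule.{u, v} F (flag F k)}
    (h : Tower h2 V k d X) : X.LiesOver V := by
  have hall := fun (k d : ℕ) (X : HBimodule.{u, v} F (flag F k)) (h : Tower h2 V k d X) =>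
    h.good h2 hV
  induction h with
  | base =>
    exact liesOver_iff.mpr ⟨LinearMap.id, ⟨fun a m => rfl, fun m b b' hb => by
      rw [Subtype.ext hb]; rfl⟩, fun hc => by
        obtain ⟨w, hw⟩ := @exists_ne _ hV.1 (0 : V.carrier)
        exact hw (LinearMap.congr_fun hc w)⟩
  | extend k d W hW ρ hρ ih =>
    have hg := hall _ _ _ hW
    have h3 := (flagStep h2 k).step_extend.{u, v, v} h2 hg.1 hg.2 hρ
    exact lies_trans (flag_mono (Nat.zero_le _)) (flag_mono (Nat.le_succ _)) h3.2.2.1 hg.2 ih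
  | double k d W hW hno ih =>
    have hg := hall _ _ _ hW
    exact lies_trans (flag_mono (Nat.zero_le _)) (flag_mono (Nat.le_succ _))
      ((flagStep h2 k).over_double W hg.2) hg.2 ih

lemma Tower.over {k d : ℕ} {X : HBimodule.{u, v} F (flag F k)} (h : Tower h2 V k d X)
    {V' : HBimodule.{u, w} F (flag F 0)} (h' : X.LiesOver V') : V.LiesOver V' := by
  induction h with
  | base => exact h'
  | extend k d W hW ρ hρ ih => exact ih (lies_of_extend (flagStep h2 k) hρ.1 h')
  | double k d W hW hno ih =>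
    exact ih (lies_of_double (flagStep h2 k) (flag_mono (Nat.zero_le _)) h')

/-- every irreducible right alternative bimodule over a subspace of the chain is the top of a
tower -/
theorem exists_tower : ∀ (k : ℕ), k ≤ 4 → ∀ M : HBimodule.{u, v} F (flag F k),
    M.RightAlternative → M.Irreducible → ∃ V : HBimodule.{u, v} F (flag F 0), V.Irreducible ∧
      ∃ (d : ℕ) (X : HBimodule.{u, v} F (flag F k)), Tower h2 V k d X ∧ M.Matches X := by
  intro k
  induction k with
  | zero =>
    intro _ M _ hM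
    exact ⟨M, hM, 0, M, Tower.base, matches_iff.mpr ⟨LinearMap.id, ⟨fun a m => rfl,
      fun m b b' hb => by rw [Subtype.ext hb]; rfl⟩, Function.bijective_id⟩⟩
  | succ k ih =>
    intro hk M hRA hM
    let kk : Fin 4 := ⟨k, by omega⟩
    obtain ⟨W, hWRA, hW, hMW⟩ := (flagStep h2 kk).exists_below' hRA hM
    obtain ⟨V, hV, d, X, hX, hWX⟩ := ih (by omega) W hWRA hW
    have hg := hX.good h2 hV
    have hMX : M.LiesOver X := lies_trans le_rfl (flag_mono (Nat.le_succ _)) hMW hW
      (liesOver_of_matches hWX hg.2)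
    refine ⟨V, hV, ?_⟩
    by_cases hext : ∃ ρ, (flagStep h2 kk).IsExtension X ρ
    · obtain ⟨ρ, hρ⟩ := hext
      have h3 := (flagStep h2 kk).step_extend.{u, v, v} h2 hg.1 hg.2 hρ
      rcases h3.2.2.2.2 h3.2.2.2.1.1 M hRA hM hMX with h4 | h4
      · exact ⟨d, _, Tower.extend kk d X hX ρ hρ, h4⟩
      · exact ⟨d, _, Tower.extend kk d X hX _ h3.2.2.2.1, h4⟩
    · have hno : ∀ ρ, ¬ (flagStep h2 kk).IsExtension X ρ := fun ρ hρ => hext ⟨ρ, hρ⟩
      have h3 := (flagStep h2 kk).step_double.{u, v, v} h2 hg.1 hg.2 hno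
      exact ⟨d + 1, _, Tower.double kk d X hX hno, h3.2.2.2 M hRA hM hMX⟩

end Pool.Agent.H581.RA
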